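import Pool.Agent.E8helper73.CTM.LocB

/-!
# Project CTM (LOCM2): the local condition at `3`
-/

set_option autoImplicit false
set_option linter.unusedSectionVars false
set_option linter.unusedVariables false

namespace Pool.Agent.E8helper73.CTM

open Pool.Agent.Y692.QS
open Pool.Agent.Y715.T.Gi Pool.Agent.Y715.T.Nr Pool.Agent.Y715.T.Df Pool.Agent.Y715.T.Ell
open Pool.Agent.Y715.T.Red Pool.Agent.Y715.T.Thr
open Pool.Agent.Y703.CT
open Pool.Agent.Y180.CT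

open scoped Classical

/-! ### Digits -/

/-- the digit -/
def s2 (α : Ei) : ZMod 3 := -((((α.re - 1) / 3 : ℤ) : ZMod 3) + ((α.im / 3 : ℤ) : ZMod 3))

theorem three_form (p : Ei) : (3 : Ei) * p = ⟨3 * p.re, 3 * p.im⟩ := by
  have h3 : (3 : Ei) = ⟨3, 0⟩ := by decide
  rw [h3]
  ext
  · simp
  · simp

theorem one_add_form (p : Ei) : (1 : Ei) + 3 * p = ⟨1 + 3 * p.re, 3 * p.im⟩ := by
  have h1 : (1 : Ei) = ⟨1, 0⟩ := by decide
  rw [three_form, h1]
  ext
  · simp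
  · simp

theorem s2_form (p : Ei) : s2 (1 + 3 * p) = -((p.re + p.im : ℤ) : ZMod 3) := by
  rw [one_add_form]
  unfold s2
  have e1 : (1 + 3 * p.re - 1) / 3 = p.re := by omega
  have e2 : 3 * p.im / 3 = p.im := by omega
  simp only
  rw [e1, e2]
  push_cast
  rfl

theorem ex_form {α : Ei} (h : (3 : Ei) ∣ α - 1) : ∃ p : Ei, α = 1 + 3 * p := by
  obtain ⟨p, hp⟩ := h
  exact ⟨p, by rw [← hp]; ring⟩

theorem s2_mul {α β : Ei} (h : (3 : Ei) ∣ α - 1) (h' : (3 : Ei) ∣ β - 1) :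
    s2 (α * β) = s2 α + s2 β := by
  obtain ⟨p, rfl⟩ := ex_form h
  obtain ⟨q, rfl⟩ := ex_form h'
  have e : (1 + 3 * p) * (1 + 3 * q) = 1 + 3 * (p + q + 3 * (p * q)) := by ring
  rw [e, s2_form, s2_form, s2_form, three_form]
  have e2 : ((p + q + (⟨3 * (p * q).re, 3 * (p * q).im⟩ : Ei)).re +
      (p + q + (⟨3 * (p * q).re, 3 * (p * q).im⟩ : Ei)).im : ℤ) =
      (p.re + p.im) + (q.re + q.im) + 3 * ((p * q).re + (p * q).im) := by
    rw [QuadraticAlgebra.re_add, QuadraticAlgebra.re_add, QuadraticAlgebra.im_add,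
      QuadraticAlgebra.im_add]
    ring
  rw [e2]
  push_cast
  have h3 : (3 : ZMod 3) = 0 := by decide
  rw [h3]
  ring

theorem prm_mul' {α β : Ei} (h : (3 : Ei) ∣ α - 1) (h' : (3 : Ei) ∣ β - 1) : (3 : Ei) ∣ α * β - 1 := by
  have e : α * β - 1 = (α - 1) * β + (β - 1) := by ring
  rw [e]
  exact dvd_add (h.mul_right _) h'

theorem prm_pow {α : Ei} (h : (3 : Ei) ∣ α - 1) (n : ℕ) : (3 : Ei) ∣ α ^ n - 1 := by
  induction n with
  | zero => rw [pow_zero, sub_self]; exact dvd_zero _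
  | succ n ih => rw [pow_succ]; exact prm_mul' ih h

theorem s2_pow {α : Ei} (h : (3 : Ei) ∣ α - 1) (n : ℕ) : s2 (α ^ n) = n * s2 α := by
  induction n with
  | zero =>
    have e : (1 : Ei) = 1 + 3 * 0 := by ring
    rw [pow_zero, e, s2_form]
    simp
  | succ n ih =>
    rw [pow_succ, s2_mul (prm_pow h n) h, ih]
    push_cast
    ring

theorem s2_nat (b : ℕ) : s2 (1 + 3 * (b : Ei)) = -(b : ZMod 3) := by
  rw [s2_form]
  simp

/-- multiples of `lam` -/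
theorem s2_lam {Q : Ei} (h : lam ∣ Q) : s2 (1 + 3 * Q) = 0 := by
  obtain ⟨r, rfl⟩ := h
  rw [s2_form]
  have e : ((lam * r).re + (lam * r).im : ℤ) = 3 * (r.re - r.im) := by
    unfold lam
    rw [QuadraticAlgebra.re_mul, QuadraticAlgebra.im_mul]
    simp
    ring
  rw [e]
  push_cast
  have h3 : (3 : ZMod 3) = 0 := by decide
  rw [h3]
  ring

theorem w_pow {T : ℕ} (h : w ^ T = 1 ∨ w ^ T = -1) : 3 ∣ T := by
  have e : w ^ T = w ^ (T % 3) := by
    conv_lhs => rw [← Nat.div_add_mod T 3]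
    rw [pow_add, pow_mul, w_cube, one_pow, one_mul]
  rw [e] at h
  have h1 : T % 3 < 3 := Nat.mod_lt _ (by norm_num)
  obtain ⟨r, hr⟩ : ∃ r, r = T % 3 := ⟨_, rfl⟩
  rw [← hr] at h h1
  interval_cases r
  · omega
  · exfalso
    revert h
    decide
  · exfalso
    revert h
    decide

/-! ### The classes of the elements of `ℤ[ω]` -/

variable {I : PadicAlgCl 3}

/-- the element of the ring of integers -/
noncomputable def evO (hI : I ^ 2 + I + 1 = 0) (z : Ei) : OO I := ⟨ev I hI z, ev_mem hI z, ev_le hI z⟩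

theorem core_lemma (hI : I ^ 2 + I + 1 = 0) {V : PadicAlgCl 3} {ρ : OO I} {u Q : Ei} {g : ℕ}
    (hu : IsUnit u) (hV : V ∈ Kl I)
    (h : V ^ 3 * ((1 + mO hI ^ 3 * ρ : OO I) : PadicAlgCl 3) = ev I hI (u * lam ^ g * (1 + 3 * Q))) :
    3 ∣ g ∧ (u = 1 ∨ u = -1) ∧ lam ∣ Q := by
  have h3 := m_sq hI
  have h3c : ((mO hI : OO I) : PadicAlgCl 3) ^ 2 = -3 := by
    have : ((mO hI ^ 2 : OO I) : PadicAlgCl 3) = ((-3 : OO I) : PadicAlgCl 3) := by rw [h3]
    push_cast at this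
    exact this
  obtain ⟨hg, hu1⟩ := gen hI (v := V) (z := ((-(mO hI * ρ) : OO I) : PadicAlgCl 3)) (u := u) (q := Q)
    (g := g) hu (Kl_le hV) (-(mO hI * ρ)).2.2 (Kl_le (-(mO hI * ρ)).2.1) (by
      rw [← h]
      push_cast
      linear_combination (-V ^ 3 * ((mO hI : OO I) : PadicAlgCl 3) * (ρ : PadicAlgCl 3)) * h3c)
  refine ⟨hg, hu1, ?_⟩
  obtain ⟨g', rfl⟩ := hg
  obtain ⟨uO, huO, hue⟩ : ∃ uO : OO I, (uO = 1 ∨ uO = -1) ∧ ((uO : OO I) : PadicAlgCl 3) = ev I hI u := by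
    rcases hu1 with rfl | rfl
    · exact ⟨1, Or.inl rfl, by rw [map_one]; rfl⟩
    · exact ⟨-1, Or.inr rfl, by rw [map_neg, map_one]; rfl⟩
  obtain ⟨m, hm⟩ : ∃ m : PadicAlgCl 3, m = (mO hI : OO I) := ⟨_, rfl⟩
  have hm0 : m ≠ 0 := by rw [hm]; exact m_ne' hI
  have hlam : ev I hI lam = m := by rw [ev_lam, hm, coe_m]
  -- divide by the power of `m`
  have hV1 : (V / m ^ g') ^ 3 * ((1 + mO hI ^ 3 * ρ : OO I) : PadicAlgCl 3) =
      ((uO * (1 + 3 * evO hI Q) : OO I) : PadicAlgCl 3) := by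
    have e1 : ((uO * (1 + 3 * evO hI Q) : OO I) : PadicAlgCl 3) = ev I hI u * (1 + 3 * ev I hI Q) := by
      rw [← hue]
      push_cast
      rfl
    rw [e1, div_pow, div_mul_eq_mul_div, h, div_eq_iff (pow_ne_zero 3 (pow_ne_zero _ hm0))]
    rw [map_mul, map_mul, map_pow, hlam, map_add, map_one, map_mul, map_ofNat]
    ring
  have hn : ‖V / m ^ g'‖ = 1 := by
    have h1 := congrArg norm hV1
    have e1 : (1 + mO hI ^ 3 * ρ : OO I) = 1 + mO hI * (mO hI ^ 2 * ρ) := by ring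
    have e2 : (1 + 3 * evO hI Q : OO I) = 1 + mO hI * (-mO hI * evO hI Q) := by
      linear_combination evO hI Q * h3
    have hun : ‖((uO : OO I) : PadicAlgCl 3)‖ = 1 := by
      rcases huO with rfl | rfl
      · simp
      · simp
    rw [norm_mul, norm_pow, e1, norm_small hI, mul_one, Subring.coe_mul, norm_mul, e2,
      norm_small hI, mul_one, hun] at h1
    exact (pow_eq_one_iff_of_nonneg (norm_nonneg _) three_ne_zero).1 h1
  obtain ⟨x, hx⟩ : ∃ x : OO I, (x : PadicAlgCl 3) = V / m ^ g' :=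
    ⟨⟨V / m ^ g', div_mem hV (pow_mem (by rw [hm]; exact (mO hI).2.1) _), hn.le⟩, rfl⟩
  rw [← hx] at hV1 hn
  have hOO : x ^ 3 * (1 + mO hI ^ 3 * ρ) = uO * (1 + 3 * evO hI Q) := by
    apply Subtype.ext
    rw [← hV1]
    push_cast
    rfl
  obtain ⟨δ, hδ, ρ₁, ex⟩ := cube_unit hI x hn
  rw [ex] at hOO
  have hδu : δ = uO := by
    rcases hδ with rfl | rfl <;> rcases huO with rfl | rfl
    · rfl
    · exfalso
      refine two_ne hI (-(mO hI ^ 2 * ρ) - mO hI ^ 2 * ρ₁ * (1 + mO hI ^ 3 * ρ) +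
        mO hI * evO hI Q) ?_
      linear_combination hOO - evO hI Q * h3
    · exfalso
      refine two_ne hI (-(mO hI ^ 2 * ρ) + mO hI ^ 2 * ρ₁ * (1 + mO hI ^ 3 * ρ) +
        mO hI * evO hI Q) ?_
      linear_combination -hOO - evO hI Q * h3
    · rfl
  subst hδu
  have hδ2 : δ * δ = 1 := by rcases hδ with rfl | rfl <;> ring
  have hq : evO hI Q = mO hI * (-(ρ) - δ * ρ₁ * (1 + mO hI ^ 3 * ρ)) := by
    apply mul_left_cancel₀ (pow_ne_zero 2 (m_ne hI))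
    linear_combination δ * hOO + (evO hI Q) * h3 - (mO hI ^ 3 * ρ - 3 * evO hI Q) * hδ2
  refine (dvd_iff hI prime_lam (lam_lt hI) Q).2 ?_
  have e : ev I hI Q = ((evO hI Q : OO I) : PadicAlgCl 3) := rfl
  rw [e, hq, Subring.coe_mul, norm_mul]
  have h5 := m_lt hI
  have h6 := (-(ρ) - δ * ρ₁ * (1 + mO hI ^ 3 * ρ) : OO I).2.2
  have h7 := m_pos hI
  nlinarith [norm_nonneg (((-(ρ) - δ * ρ₁ * (1 + mO hI ^ 3 * ρ) : OO I)) : PadicAlgCl 3)]

/-- the coefficient `A` -/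
noncomputable def AO (hI : I ^ 2 + I + 1 = 0) (b : ℕ) (d : Ei) : OO I := iO hI ^ b * (1 + 3 * evO hI d)

theorem AO_form (hI : I ^ 2 + I + 1 = 0) {b : ℕ} (hb : b ≤ 2) (d : Ei) :
    ∃ A₂ : OO I, AO hI b d = 1 - b * mO hI + mO hI ^ 2 * A₂ := by
  have h3 := m_sq hI
  have hi := i_rel hI
  have hm : mO hI = 1 + 2 * iO hI := rfl
  unfold AO
  interval_cases b
  · refine ⟨-evO hI d, ?_⟩
    push_cast
    linear_combination evO hI d * h3
  · refine ⟨-iO hI - iO hI * evO hI d, ?_⟩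
    push_cast
    linear_combination (iO hI * evO hI d + iO hI) * h3 + hm
  · refine ⟨1 + iO hI - mO hI - iO hI ^ 2 * evO hI d, ?_⟩
    push_cast
    linear_combination (iO hI ^ 2 * evO hI d - 1 - iO hI + mO hI) * h3 + hi - hm

theorem AO_coe (hI : I ^ 2 + I + 1 = 0) (b : ℕ) (d : Ei) :
    ((mO hI * AO hI b d : OO I) : PadicAlgCl 3) = ev I hI (lam * w ^ b * (1 + 3 * d)) := by
  unfold AO
  rw [map_mul, map_mul, map_pow, ev_lam, ev_w, map_add, map_one, map_mul, map_ofNat, ← coe_m hI]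
  push_cast
  rw [coe_i]
  have : ((evO hI d : OO I) : PadicAlgCl 3) = ev I hI d := rfl
  rw [this]
  have h3 : ((3 : OO I) : PadicAlgCl 3) = 3 := rfl
  rw [h3]
  ring

theorem EE_coe (hI : I ^ 2 + I + 1 = 0) (b : ℕ) :
    ((EE hI b : OO I) : PadicAlgCl 3) = ev I hI (w ^ 2 * (1 + 3 * b)) := by
  unfold EE
  rw [map_mul, map_pow, ev_w, map_add, map_one, map_mul, map_ofNat, map_natCast]
  push_cast
  rw [coe_i]
  have h3 : ((3 : OO I) : PadicAlgCl 3) = 3 := rfl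
  rw [h3]

/-- **the conclusion for the class of an element of `ℤ[ω]`** -/
theorem fin_class (hI : I ^ 2 + I + 1 = 0) {b : ℕ} {D : Ei} (hD : (3 : Ei) ∣ D - 1)
    {v q : Ei} {g t : ℕ} (hv : v = w ^ t ∨ v = -w ^ t)
    (h : GG hI (ev I hI (lam * w ^ b * D)) (ev I hI (w ^ 2 * (1 + 3 * b)))
      (ev I hI (v * lam ^ g * (1 + 3 * q)))) :
    s2 (1 + 3 * q) = g * s2 D + (t - b * g) * b := by
  obtain ⟨c, j, V, hV, hV0, ρ, e⟩ := h
  obtain ⟨ε, hε, rfl⟩ : ∃ ε : Ei, (ε = 1 ∨ ε = -1) ∧ v = ε * w ^ t := by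
    rcases hv with rfl | rfl
    · exact ⟨1, Or.inl rfl, by ring⟩
    · exact ⟨-1, Or.inr rfl, by ring⟩
  have hq : (3 : Ei) ∣ (1 + 3 * q) - 1 := ⟨q, by ring⟩
  have hb : (3 : Ei) ∣ (1 + 3 * (b : Ei)) - 1 := ⟨b, by ring⟩
  obtain ⟨Q, hQ⟩ := ex_form (prm_mul' (prm_mul' hq (prm_pow hD (2 * c))) (prm_pow hb (2 * j)))
  have hs : s2 (1 + 3 * Q) = s2 (1 + 3 * q) + (2 * c : ℕ) * s2 D + (2 * j : ℕ) * -(b : ZMod 3) := by
    rw [← hQ, s2_mul (prm_mul' hq (prm_pow hD (2 * c))) (prm_pow hb (2 * j)),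
      s2_mul hq (prm_pow hD (2 * c)), s2_pow hD, s2_pow hb, s2_nat]
  have hwu : IsUnit w := IsUnit.of_mul_eq_one (w ^ 2) (by rw [← pow_succ', w_cube])
  have hεu : IsUnit ε := by
    rcases hε with rfl | rfl
    · exact isUnit_one
    · exact isUnit_one.neg
  have hα : ev I hI (lam * w ^ b * D) ∈ Kl I := ev_mem hI _
  have hE : ev I hI (w ^ 2 * (1 + 3 * b)) ∈ Kl I := ev_mem hI _
  obtain ⟨h1, h2, h3⟩ := core_lemma hI (V := ev I hI (lam * w ^ b * D) ^ c *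
      ev I hI (w ^ 2 * (1 + 3 * b)) ^ j * V) (ρ := ρ) (u := ε * w ^ (t + 2 * b * c + 4 * j)) (Q := Q)
    (g := g + 2 * c) (hεu.mul (hwu.pow _)) (mul_mem (mul_mem (pow_mem hα _) (pow_mem hE _)) hV) (by
      have e1 : ε * w ^ (t + 2 * b * c + 4 * j) * lam ^ (g + 2 * c) * (1 + 3 * Q) =
          (ε * w ^ t * lam ^ g * (1 + 3 * q)) * (lam * w ^ b * D) ^ (2 * c) *
            (w ^ 2 * (1 + 3 * b)) ^ (2 * j) := by
        rw [← hQ]
        have e2 : w ^ (t + 2 * b * c + 4 * j) = w ^ t * (w ^ b) ^ (2 * c) * (w ^ 2) ^ (2 * j) := by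
          rw [← pow_mul, ← pow_mul, ← pow_add, ← pow_add]
          congr 1
          ring
        rw [e2, mul_pow, mul_pow, mul_pow, pow_add]
        ring
      have e3 : ev I hI ((ε * w ^ t * lam ^ g * (1 + 3 * q)) * (lam * w ^ b * D) ^ (2 * c) *
            (w ^ 2 * (1 + 3 * b)) ^ (2 * j)) = ev I hI (ε * w ^ t * lam ^ g * (1 + 3 * q)) *
            ev I hI (lam * w ^ b * D) ^ (2 * c) * ev I hI (w ^ 2 * (1 + 3 * b)) ^ (2 * j) := by
        rw [← map_pow, ← map_pow, ← map_mul, ← map_mul]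
      rw [e1, e3, e]
      ring)
  have hT : 3 ∣ t + 2 * b * c + 4 * j := by
    apply w_pow
    rcases hε with rfl | rfl
    · rw [one_mul] at h2
      exact h2
    · rcases h2 with h4 | h4
      · right
        linear_combination -h4
      · left
        linear_combination -h4
  rw [s2_lam h3] at hs
  have hg' : (((g + 2 * c : ℕ)) : ZMod 3) = 0 := (ZMod.natCast_eq_zero_iff _ _).2 h1
  have hT' : (((t + 2 * b * c + 4 * j : ℕ)) : ZMod 3) = 0 := (ZMod.natCast_eq_zero_iff _ _).2 hT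
  push_cast at hg' hT' hs
  generalize s2 (1 + 3 * q) = s at *
  generalize s2 D = sD at *
  generalize (g : ZMod 3) = g' at *
  generalize (c : ZMod 3) = c' at *
  generalize (t : ZMod 3) = t' at *
  generalize (j : ZMod 3) = j' at *
  generalize (b : ZMod 3) = b' at *
  have hc0 : ∀ x y : ZMod 3, x + 2 * y = 0 → y = x := by decide
  have hc : c' = g' := hc0 _ _ hg'
  subst hc
  have hj : j' = -t' + b' * c' := by
    have h30 : (3 : ZMod 3) = 0 := by decide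
    linear_combination hT' - (b' * c' + j') * h30
  subst hj
  have h30 : (3 : ZMod 3) = 0 := by decide
  linear_combination -hs + (-c' * sD + (-t' + b' * c') * b') * h30

section final

variable {i₀ : QB} {hi : i₀ ^ 2 + i₀ + 1 = 0} {D : Ei} {u : QB} {a h : GK i₀ → ZMod 3}
  {ι : QB →ₐ[ℚ] PadicAlgCl 3} {R : Pt (PadicAlgCl 3)}

theorem coreM2 {b : ℕ} (hb : b ≤ 2) (hD3 : (3 : Ei) ∣ D - 1) (hT : Tw hi (lam * w ^ b * D) u a)
    {v q : Ei} {g t : ℕ} (hv : v = w ^ t ∨ v = -w ^ t) (hK : Kc hi (v * lam ^ g * (1 + 3 * q)) h)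
    (hS : St1 hi ι a h R) : s2 (1 + 3 * q) = g * s2 D + (t - b * g) * b := by
  have hI := iota_sq' hi ι
  have hI3 : ι i₀ ^ 3 = 1 := by linear_combination (ι i₀ - 1) * hI
  obtain ⟨d₀, hd₀⟩ := ex_form hD3
  obtain ⟨A₂, hA₂⟩ := AO_form hI hb d₀
  have hAc := AO_coe hI b d₀
  rw [← hd₀] at hAc
  obtain ⟨α, hα⟩ : ∃ α, α = ev (ι i₀) hI (lam * w ^ b * D) := ⟨_, rfl⟩
  have hwu : IsUnit w := IsUnit.of_mul_eq_one (w ^ 2) (by rw [← pow_succ', w_cube])
  have hD0 : D ≠ 0 := by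
    rintro rfl
    rw [zero_sub, dvd_neg] at hD3
    have h1 : (((3 : ℤ) : Ei)) ∣ ((1 : ℤ) : Ei) := by exact_mod_cast hD3
    rw [Pool.Agent.Y692.QS.int_dvd_int] at h1
    omega
  have hα0 : α ≠ 0 := by
    rw [hα]
    exact ev_ne hI (mul_ne_zero (mul_ne_zero prime_lam.ne_zero (pow_ne_zero _ hwu.ne_zero)) hD0)
  have hαm : α ∈ Kl (ι i₀) := by rw [hα]; exact ev_mem hI _
  have hE0 : ((EE hI b : OO (ι i₀)) : PadicAlgCl 3) ≠ 0 := by
    rw [← norm_pos_iff, EE_norm]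
    exact one_pos
  have hU3 : ι u ^ 3 = α := by
    rw [← map_pow, hT.cube, iota_ev' hi ι, hα]
  have hU0 : ι u ≠ 0 := by
    intro h0
    rw [h0, zero_pow three_ne_zero] at hU3
    exact hα0 hU3.symm
  -- the cube root
  obtain ⟨s, hs⟩ := IsAlgClosed.exists_pow_nat_eq (ev i₀ hi (v * lam ^ g * (1 + 3 * q)))
    (n := 3) (by norm_num)
  have hZ : ι s ^ 3 = ev (ι i₀) hI (v * lam ^ g * (1 + 3 * q)) := by
    rw [← map_pow, hs, iota_ev' hi ι]
  have hts : ∀ (τ : Au 3) (σ : GK i₀), Cmp ι τ σ → τ (ι s) = ι i₀ ^ (h σ).val * ι s := by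
    intro τ σ hc
    rw [hc, hK s hs σ, map_mul, map_pow]
  have hv0 : v ≠ 0 := by
    rcases hv with rfl | rfl
    · exact pow_ne_zero _ hwu.ne_zero
    · exact neg_ne_zero.2 (pow_ne_zero _ hwu.ne_zero)
  have hz0 : v * lam ^ g * (1 + 3 * q) ≠ 0 := by
    refine mul_ne_zero (mul_ne_zero hv0 (pow_ne_zero _ prime_lam.ne_zero)) ?_
    intro h0
    have h1 : ev (ι i₀) hI (1 + 3 * q) = 0 := by rw [h0, map_zero]
    rw [map_add, map_one, map_mul, map_ofNat] at h1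
    exact one_add_ne (ev_le hI q) h1
  have hZ0 : ι s ^ 3 ≠ 0 := by
    rw [hZ]
    exact ev_ne hI hz0
  have hs0 : ι s ≠ 0 := fun h0 => hZ0 (by rw [h0, zero_pow three_ne_zero])
  have hZm : ι s ^ 3 ∈ Kl (ι i₀) := by rw [hZ]; exact ev_mem hI _
  -- it suffices to know the class
  suffices hG : GG hI α ((EE hI b : OO (ι i₀)) : PadicAlgCl 3) (ι s ^ 3) by
    rw [hα, EE_coe, hZ] at hG
    exact fin_class hI hD3 hv hG
  by_cases hQ0 : R - im (isE _) hI R = 0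
  · -- `R` is a multiple of `T`
    obtain ⟨c, hc⟩ := ker_tt hI hQ0
    have hm : ι s ∈ Kl (ι i₀) := by
      intro τ hτ
      obtain ⟨σ, hcm⟩ := exists_cmp ι τ hτ
      have h1 := hS τ σ hcm
      rw [hc, pm_tt, jj_tt, sub_self] at h1
      have h2 := tt_eq_zero.1 h1.symm
      rw [hts τ σ hcm, h2, ZMod.val_zero, pow_zero, one_mul]
    exact GG.cube hm hs0
  · obtain ⟨x, y, hn, hR⟩ : ∃ x y, ∃ hn : (W0.baseChange (PadicAlgCl 3)).toAffine.Nonsingular x y,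
        R = .some x y hn := by
      rcases R with _ | ⟨x, y, hn⟩
      · exfalso
        apply hQ0
        show (0 : Pt (PadicAlgCl 3)) - im (isE _) hI 0 = 0
        rw [map_zero, sub_zero]
      · exact ⟨x, y, hn, rfl⟩
    have he := ((isE _).eqn x y).1 hn.1
    have hx : x ≠ 0 := by
      intro h0
      apply hQ0
      rw [hR, im_some, sub_eq_zero, WeierstrassCurve.Affine.Point.some.injEq]
      exact ⟨by rw [h0, mul_zero], rfl⟩
    obtain ⟨XQ, hnQ, eQ⟩ : ∃ XQ, ∃ hnQ : (W0.baseChange (PadicAlgCl 3)).toAffine.Nonsingular XQ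
        (gg (ι i₀) R ^ 3), R - im (isE _) hI R = .some XQ _ hnQ := by
      rw [hR]
      obtain ⟨XQ, hnQ, eQ, -⟩ := one_sub_im (isE _) hI hn hx
      exact ⟨XQ, hnQ, eQ⟩
    by_cases hG : gg (ι i₀) R = 0
    · -- `R - J R = T`
      have hlam := lam_ne (isE (PadicAlgCl 3)) hI
      have hy : y = ι i₀ ^ 2 := by
        rw [hR, gg_some, div_eq_zero_iff] at hG
        rcases hG with h1 | h1
        · exact sub_eq_zero.1 h1
        · exact absurd h1 (mul_ne_zero hlam hx)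
      have h0 := (isE (PadicAlgCl 3)).neg_nons hn
      have hR' : -R = .some x (-y - 1) h0 := by
        rw [hR]
        exact (isE _).neg_eq hn h0
      have hgg : gg (ι i₀) (-R) = 1 / x := by
        rw [hR', gg_some, hy, div_eq_div_iff (mul_ne_zero hlam hx) hx]
        linear_combination (-2 * x) * hI
      have hx3 : x ^ 3 = -1 := by
        rw [← he, hy]
        linear_combination (ι i₀ ^ 2 - ι i₀ + 1) * hI
      have hW3 : (ι u * gg (ι i₀) (-R)) ^ 3 = (-1) ^ 3 * α := by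
        rw [hgg, mul_pow, hU3, div_pow, hx3]
        ring
      have hW0 : ι u * gg (ι i₀) (-R) ≠ 0 := by
        rw [hgg]
        exact mul_ne_zero hU0 (div_ne_zero one_ne_zero hx)
      obtain ⟨W, hW⟩ : ∃ W, W = ι u * gg (ι i₀) (-R) := ⟨_, rfl⟩
      have hm : ι s / W ∈ Kl (ι i₀) := by
        rw [hW]
        intro τ hτ
        obtain ⟨σ, hcm⟩ := exists_cmp ι τ hτ
        rw [map_div₀, hts τ σ hcm, tau_g hT (st1_neg hS) hR' hx hcm]
        have h1 := pow_three hI (-h σ)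
        rw [neg_neg] at h1
        rw [← h1, mul_div_mul_left]
        exact pow_ne_zero _ (I_ne (isE (PadicAlgCl 3)) hI)
      rw [← hW] at hW3 hW0
      have hd3 : ι s ^ 3 = (ι s / W) ^ 3 * ((-1) ^ 3 * α) := by
        rw [← hW3, ← mul_pow, div_mul_cancel₀ _ hW0]
      rw [hd3]
      exact (GG.cube hm (div_ne_zero hs0 hW0)).mul
        ((GG.cube (neg_mem (one_mem _)) (neg_ne_zero.2 one_ne_zero)).mul GG.gen1)
    · -- the general case
      have hW0 : ι u * gg (ι i₀) R ≠ 0 := mul_ne_zero hU0 hG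
      have hm : ι s * (ι u * gg (ι i₀) R) ∈ Kl (ι i₀) := by
        intro τ hτ
        obtain ⟨σ, hcm⟩ := exists_cmp ι τ hτ
        rw [map_mul, hts τ σ hcm, tau_g hT hS hR hx hcm]
        have h1 := pow_cancel hI (h σ)
        linear_combination (ι s * (ι u * gg (ι i₀) R)) * h1
      obtain ⟨W, hW⟩ : ∃ W, W = ι u * gg (ι i₀) R := ⟨_, rfl⟩
      rw [← hW] at hm hW0
      have hYm : W ^ 3 ∈ Kl (ι i₀) := by
        have e : W ^ 3 = (ι s * W) ^ 3 / ι s ^ 3 := by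
          rw [mul_pow, mul_div_cancel_left₀ _ hZ0]
        rw [e]
        exact div_mem (pow_mem hm 3) hZm
      have hXm : ι u ^ 2 * XQ ∈ Kl (ι i₀) := tau_X hT hS eQ
      have heq := ((isE _).eqn _ _).1 hnQ.1
      have heY : (W ^ 3) ^ 2 + α * W ^ 3 = (ι u ^ 2 * XQ) ^ 3 := by
        rw [hW, ← hU3]
        linear_combination (ι u ^ 6) * heq
      have hY := ord hI hA₂ hXm hYm (pow_ne_zero 3 hW0) (by rw [hAc, ← hα]; exact heY)
      rw [hAc, ← hα] at hY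
      have e3 : ι s ^ 3 = (ι s * W) ^ 3 * (W ^ 3)⁻¹ := by
        rw [mul_pow, mul_assoc, mul_inv_cancel₀ (pow_ne_zero 3 hW0), mul_one]
      rw [e3]
      exact (GG.cube hm (mul_ne_zero hs0 hW0)).mul (GG.inv hαm hα0 (EE hI b).2.1 hE0 hY)

end final

end Pool.Agent.E8helper73.CTM
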