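import Pool.Agent.E8helper20.CTM.StmA
import Pool.Agent.E8helper73.CTM.LocC

/-!
# Project CTM: M11 LOCM2, the local condition at `3`, type 2
-/

set_option autoImplicit false

namespace Pool.Agent.E8helper73.CTM

/-- **M11 LOCM2** -/
theorem t_LOCM2 : Pool.Agent.E8helper20.CTM.S_LOCM2 := by
  intro b hb i₀ hi D hD u a hT h v q g t hv hK hF ι R hS
  exact coreM2 hb hD hT hv hK hS

end Pool.Agent.E8helper73.CTM
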