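import Pool.Agent.E8helper73.CTM.LocC

/-!
# Project CTM (LOCM3): the local condition at `3` for `a = D`, `D = 1` modulo `3 √-3`
-/

set_option autoImplicit false
set_option linter.unusedSectionVars false
set_option linter.unusedVariables false

namespace Pool.Agent.E8helper73.CTM

open Pool.Agent.Y692.QS
open Pool.Agent.Y715.T.Gi Pool.Agent.Y715.T.Nr Pool.Agent.Y715.T.Df Pool.Agent.Y715.T.Ell
open Pool.Agent.Y715.T.Red Pool.Agent.Y715.T.Thr
open Pool.Agent.Y703.CT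
open Pool.Agent.Y180.CT

open scoped Classical

variable {I : PadicAlgCl 3}

theorem res_any (hI : I ^ 2 + I + 1 = 0) (ξ : OO I) :
    ∃ e : OO I, (e = 0 ∨ e = 1 ∨ e = -1) ∧ ∃ z : OO I, ξ = e + mO hI * z := by
  rcases residue3 hI ξ.2.2 ξ.2.1 with h | h | h
  · obtain ⟨z, e⟩ := lift_m hI ξ.2.1 h
    refine ⟨0, Or.inl rfl, z, Subtype.ext ?_⟩
    push_cast
    linear_combination e
  · obtain ⟨z, e⟩ := lift_m hI (sub_mem ξ.2.1 (one_mem _)) h
    refine ⟨1, Or.inr (Or.inl rfl), z, Subtype.ext ?_⟩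
    push_cast
    linear_combination e
  · obtain ⟨z, e⟩ := lift_m hI (add_mem ξ.2.1 (one_mem _)) h
    refine ⟨-1, Or.inr (Or.inr rfl), z, Subtype.ext ?_⟩
    push_cast
    linear_combination e

theorem sub_cube (hI : I ^ 2 + I + 1 = 0) (ξ : OO I) : ∃ ζ : OO I, ξ ^ 3 - ξ = mO hI * ζ := by
  obtain ⟨e, he, z, hz⟩ := res_any hI ξ
  refine ⟨3 * e ^ 2 * z + 3 * e * mO hI * z ^ 2 + mO hI ^ 2 * z ^ 3 - z, ?_⟩
  rw [hz]
  rcases he with rfl | rfl | rfl <;> ring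

theorem cube_unit4 (hI : I ^ 2 + I + 1 = 0) (x : OO I) (hx : ‖(x : PadicAlgCl 3)‖ = 1) :
    ∃ δ : OO I, (δ = 1 ∨ δ = -1) ∧ ∃ ρ : OO I, x ^ 3 = δ + mO hI ^ 4 * ρ := by
  obtain ⟨δ, hδ, ξ, e⟩ := res_unit hI x hx
  obtain ⟨ζ, hζ⟩ := sub_cube hI ξ
  have h3 := m_sq hI
  refine ⟨δ, hδ, ζ - δ * ξ ^ 2, ?_⟩
  rw [e]
  rcases hδ with rfl | rfl
  · linear_combination (mO hI * ξ + mO hI ^ 2 * ξ ^ 2) * h3 + mO hI ^ 3 * hζ
  · linear_combination (mO hI * ξ - mO hI ^ 2 * ξ ^ 2) * h3 + mO hI ^ 3 * hζ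

section alg3

variable (hI : I ^ 2 + I + 1 = 0) {b : ℕ} {A A₂ : OO I}
  (hA : A = 1 + mO hI ^ 3 * (-b + mO hI * A₂))

include hA

theorem A3_norm : ‖(A : PadicAlgCl 3)‖ = 1 := by
  have e : A = 1 + mO hI * (mO hI ^ 2 * (-b + mO hI * A₂)) := by rw [hA]; ring
  rw [e]
  exact norm_small hI _

/-- `y` and `y + A` are units -/
theorem unit3 {α : PadicAlgCl 3} {y x : OO I} (hy : ‖(y : PadicAlgCl 3)‖ = 1)
    (hyA : ‖((y + A : OO I) : PadicAlgCl 3)‖ = 1)
    (hx : ‖(x : PadicAlgCl 3)‖ = 1) (h : y * (y + A) = x ^ 3) :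
    GG hI α (EE hI b : OO I) y := by
  obtain ⟨ε₀, hε₀, η, ey⟩ := res_unit hI y hy
  obtain ⟨δ, hδ, ρ, ex⟩ := cube_unit4 hI x hx
  have h3 := m_sq hI
  have hm0 := m_ne hI
  obtain ⟨δ', hδ'⟩ : ∃ δ', δ' = -(b : OO I) + mO hI * A₂ := ⟨_, rfl⟩
  rw [← hδ'] at hA
  have hε1 : ε₀ = 1 := by
    rcases hε₀ with h1 | h1
    · exact h1
    · exfalso
      subst h1
      have e : y + A = mO hI * (η + mO hI ^ 2 * δ') := by rw [ey, hA]; ring
      rw [e, Subring.coe_mul, norm_mul] at hyA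
      have h5 := m_lt hI
      have h6 := (η + mO hI ^ 2 * δ' : OO I).2.2
      have h7 := m_pos hI
      nlinarith [norm_nonneg (((η + mO hI ^ 2 * δ' : OO I)) : PadicAlgCl 3)]
  subst hε1
  rw [ex, ey, hA] at h
  have hδ1 : δ = -1 := by
    rcases hδ with h1 | h1
    · exfalso
      subst h1
      refine nu hI (mO hI ^ 3 * ρ - 3 * η - mO hI * η ^ 2 - mO hI ^ 2 * δ' * (1 + mO hI * η)) ?_
      linear_combination h
    · exact h1
  subst hδ1
  have E2 : η ^ 2 = 1 + mO hI * (η - δ' * (1 + mO hI * η) + mO hI * ρ) := by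
    apply mul_left_cancel₀ (pow_ne_zero 2 hm0)
    linear_combination h - (mO hI * η + 1) * h3
  have hηn : ‖(η : PadicAlgCl 3)‖ = 1 := by
    have h1 : ‖((η ^ 2 : OO I) : PadicAlgCl 3)‖ = 1 := by rw [E2]; exact norm_small hI _
    rw [Subring.coe_pow, norm_pow] at h1
    exact (pow_eq_one_iff_of_nonneg (norm_nonneg _) two_ne_zero).1 h1
  obtain ⟨ε, hε, η₁, e1⟩ := res_unit hI η hηn
  have hε2 : ε ^ 2 = 1 := by rcases hε with rfl | rfl <;> ring
  have E3 : 2 * ε * η₁ + mO hI * η₁ ^ 2 = η - δ' * (1 + mO hI * η) + mO hI * ρ := by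
    apply mul_left_cancel₀ hm0
    have E2' := E2
    rw [e1] at E2'
    have e2 : mO hI * (η - δ' * (1 + mO hI * η) + mO hI * ρ) = mO hI * ((ε + mO hI * η₁) -
      δ' * (1 + mO hI * (ε + mO hI * η₁)) + mO hI * ρ) := by rw [e1]
    rw [e2]
    linear_combination E2' - hε2
  obtain ⟨η₂, hη₂⟩ : ∃ η₂, η₂ = mO hI + ε * A₂ - ε * η₁ + ε * δ' * η - ε * ρ + ε * η₁ ^ 2 -
    mO hI * η₁ := ⟨_, rfl⟩
  have E4 : η₁ = 2 - ε * b + mO hI * η₂ := by
    rw [hη₂]
    linear_combination (-ε) * E3 + (2 * η₁ - 1) * hε2 + ε * hδ' + (η₁ - 1) * h3 - ε * e1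
  have E5 : y = 1 + ε * mO hI + mO hI ^ 2 * (2 - ε * b) + mO hI ^ 3 * η₂ := by
    rw [ey]
    linear_combination mO hI * e1 + mO hI ^ 2 * E4
  rw [E5]
  exact GG.two b hε η₂

/-- **the class of the ordinate** -/
theorem ord3 {α : PadicAlgCl 3} {X Y : PadicAlgCl 3} (hα : α ∈ Kl I) (hα0 : α ≠ 0)
    (hX : X ∈ Kl I) (hY : Y ∈ Kl I) (hY0 : Y ≠ 0)
    (h : Y ^ 2 + A * Y = X ^ 3) :
    GG hI α (EE hI b : OO I) Y := by
  obtain ⟨m, hm⟩ : ∃ m : PadicAlgCl 3, m = (mO hI : OO I) := ⟨_, rfl⟩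
  have hm0 : m ≠ 0 := by rw [hm]; exact m_ne' hI
  have hmp : 0 < ‖m‖ := norm_pos_iff.2 hm0
  have hm1 : ‖m‖ < 1 := by rw [hm]; exact m_lt hI
  have hAn := A3_norm hI hA
  have hA0 : (A : PadicAlgCl 3) ≠ 0 := by
    rw [← norm_pos_iff, hAn]
    exact one_pos
  have hE0 : ((EE hI b : OO I) : PadicAlgCl 3) ≠ 0 := by
    rw [← norm_pos_iff, EE_norm]
    exact one_pos
  have hsmallA : GG hI α (EE hI b : OO I) (A : PadicAlgCl 3) := by
    rw [hA]
    exact GG.small _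
  by_cases hX0 : X = 0
  · have h1 : Y * (Y + A) = 0 := by
      rw [hX0] at h
      linear_combination h
    have h2 : Y = (-1) ^ 3 * A := by
      rcases mul_eq_zero.1 h1 with h3 | h3
      · exact absurd h3 hY0
      · linear_combination h3
    rw [h2]
    exact (GG.cube (neg_mem (one_mem _)) (neg_ne_zero.2 one_ne_zero)).mul hsmallA
  obtain ⟨n, y, hy, ey⟩ := vv hI hY hY0
  obtain ⟨k, x, hx, ex⟩ := vv hI hX hX0
  rw [← hm] at ey ex
  have hXn : ‖X ^ 3‖ = ‖m‖ ^ (3 * k) := by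
    rw [norm_pow, ex, norm_mul, hx, mul_one, norm_zpow, mul_comm, zpow_mul]
    norm_cast
  rcases lt_trichotomy n 0 with hn | hn | hn
  · -- `Y` is large
    obtain ⟨y', hy', hy'n⟩ := unit_inv y hy
    have hyc : (y : PadicAlgCl 3) * (y' : PadicAlgCl 3) = 1 := by
      have : ((y * y' : OO I) : PadicAlgCl 3) = 1 := by rw [hy']; rfl
      simpa using this
    have hy0 : (y : PadicAlgCl 3) ≠ 0 := left_ne_zero_of_mul_eq_one hyc
    obtain ⟨N, hN⟩ : ∃ N : ℕ, (N : ℤ) = -n := ⟨(-n).toNat, by omega⟩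
    obtain ⟨N₁, hN₁⟩ : ∃ N₁, N = N₁ + 1 := ⟨N - 1, by omega⟩
    have e1 : (A : PadicAlgCl 3) / Y = ((mO hI ^ N * (A * y') : OO I) : PadicAlgCl 3) := by
      push_cast
      rw [← hm, div_eq_iff hY0, ey]
      have h4 : m ^ N * m ^ n = 1 := by
        rw [← zpow_natCast, ← zpow_add₀ hm0, hN]
        simp
      linear_combination (-(A : PadicAlgCl 3) * ((y : PadicAlgCl 3) * y')) * h4 -
        (A : PadicAlgCl 3) * hyc
    have e2 : Y ^ 2 * ((1 + mO hI ^ N * (A * y') : OO I) : PadicAlgCl 3) = X ^ 3 := by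
      rw [← h]
      have e3 : ((1 + mO hI ^ N * (A * y') : OO I) : PadicAlgCl 3) = 1 + (A : PadicAlgCl 3) / Y := by
        rw [e1]
        push_cast
        ring
      rw [e3]
      field_simp
    have e6 : (1 + mO hI ^ N * (A * y') : OO I) = 1 + mO hI * (mO hI ^ N₁ * (A * y')) := by
      rw [hN₁]; ring
    have hk : 2 * n = 3 * k := by
      apply zinj hI
      rw [← hm, ← hXn, ← e2, norm_mul, e6, norm_small hI, mul_one, norm_pow, ey, norm_mul, hy,
        mul_one, norm_zpow, mul_comm (2 : ℤ) n, zpow_mul]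
      norm_cast
    obtain ⟨N', rfl⟩ : ∃ N', N = N' + 3 := ⟨N - 3, by omega⟩
    have e4 : (1 + mO hI ^ (N' + 3) * (A * y') : OO I) =
        1 + mO hI ^ 3 * (mO hI ^ N' * (A * y')) := by ring
    rw [e4] at e2
    have e5 : Y = (Y / X) ^ 3 * ((1 + mO hI ^ 3 * (mO hI ^ N' * (A * y')) : OO I) : PadicAlgCl 3) := by
      rw [div_pow, div_mul_eq_mul_div, eq_div_iff (pow_ne_zero 3 hX0)]
      linear_combination (-Y) * e2
    rw [e5]
    exact (GG.cube (div_mem hY hX) (div_ne_zero hY0 hX0)).mul (GG.small _)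
  · -- `Y` is a unit
    subst hn
    rw [zpow_zero, one_mul] at ey
    have e1 : Y * (Y + A) = X ^ 3 := by rw [← h]; ring
    by_cases hZ1 : ‖((y + A : OO I) : PadicAlgCl 3)‖ = 1
    · have hk : 0 = 3 * k := by
        apply zinj hI
        have e2 : Y + A = ((y + A : OO I) : PadicAlgCl 3) := by push_cast; rw [ey]
        rw [← hm, ← hXn, ← e1, norm_mul, e2, hZ1, ey, hy]
        simp
      have hk0 : k = 0 := by omega
      rw [hk0, zpow_zero, one_mul] at ex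
      rw [ey]
      refine unit3 hI hA hy hZ1 hx ?_
      apply Subtype.ext
      push_cast
      rw [← ex, ← e1, ey]
    · -- `Y + A` is small
      have hZ2 : ‖((y + A : OO I) : PadicAlgCl 3)‖ < 1 := lt_of_le_of_ne (y + A : OO I).2.2 hZ1
      have e2 : Y + A = ((y + A : OO I) : PadicAlgCl 3) := by push_cast; rw [ey]
      have hZ0 : ((y + A : OO I) : PadicAlgCl 3) ≠ 0 := by
        intro h0
        rw [← e2] at h0
        rw [h0, mul_zero] at e1
        exact hX0 (pow_eq_zero_iff three_ne_zero |>.1 e1.symm)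
      obtain ⟨n', z, hz, ez⟩ := vv hI (y + A : OO I).2.1 hZ0
      rw [← hm] at ez
      have hZn : ‖((y + A : OO I) : PadicAlgCl 3)‖ = ‖m‖ ^ n' := by
        rw [ez, norm_mul, hz, mul_one, norm_zpow]
      have hk : n' = 3 * k := by
        apply zinj hI
        rw [← hm, ← hXn, ← e1, norm_mul, e2, hZn, ey, hy, one_mul]
      have hn'1 : 1 ≤ n' := by
        by_contra hcon
        push Not at hcon
        rw [hZn] at hZ2
        have h2 : 1 ≤ ‖m‖ ^ n' := one_le_zpow_of_nonpos₀ hmp hm1.le (by omega)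
        linarith
      obtain ⟨N, hN⟩ : ∃ N : ℕ, (N : ℤ) = n' := ⟨n'.toNat, by omega⟩
      obtain ⟨N', rfl⟩ : ∃ N', N = N' + 3 := ⟨N - 3, by omega⟩
      rw [← hN, zpow_natCast] at ez
      have e3 : Y = (-1) ^ 3 *
          ((1 + mO hI ^ 3 * ((-b + mO hI * A₂) - mO hI ^ N' * z) : OO I) : PadicAlgCl 3) := by
        have e4 : ((1 + mO hI ^ 3 * ((-b + mO hI * A₂) - mO hI ^ N' * z) : OO I) : PadicAlgCl 3) =
            (A : PadicAlgCl 3) - m ^ (N' + 3) * z := by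
          rw [hA, hm]
          push_cast
          ring
        rw [e4, ← ez]
        push_cast
        rw [ey]
        ring
      rw [e3]
      exact (GG.cube (neg_mem (one_mem _)) (neg_ne_zero.2 one_ne_zero)).mul (GG.small _)
  · -- `Y` is small
    obtain ⟨N, hN⟩ : ∃ N : ℕ, (N : ℤ) = n := ⟨n.toNat, by omega⟩
    rw [← hN, zpow_natCast] at ey
    obtain ⟨N₁, hN₁⟩ : ∃ N₁, N = N₁ + 1 := ⟨N - 1, by omega⟩
    have e1 : Y * (Y + A) = X ^ 3 := by rw [← h]; ring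
    have e2 : Y + A = ((1 + mO hI * (mO hI ^ 2 * (-b + mO hI * A₂) + mO hI ^ N₁ * y) : OO I) :
        PadicAlgCl 3) := by
      rw [ey, hm, hN₁, hA]
      push_cast
      ring
    have hk : n = 3 * k := by
      apply zinj hI
      rw [← hm, ← hXn, ← e1, norm_mul, e2, norm_small hI, mul_one, ey, norm_mul, hy, mul_one,
        norm_pow, ← hN, zpow_natCast]
    obtain ⟨N', rfl⟩ : ∃ N', N = N' + 3 := ⟨N - 3, by omega⟩
    have e3 : Y + A = ((1 + mO hI ^ 3 * ((-b + mO hI * A₂) + mO hI ^ N' * y) : OO I) :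
        PadicAlgCl 3) := by
      rw [ey, hm, hA]
      push_cast
      ring
    have hne : Y + A ≠ 0 := by
      intro h0
      rw [h0, mul_zero] at e1
      exact hX0 (pow_eq_zero_iff three_ne_zero |>.1 e1.symm)
    have e4 : Y = X ^ 3 * (Y + A)⁻¹ := by
      rw [← e1, mul_assoc, mul_inv_cancel₀ hne, mul_one]
    rw [e4, e3]
    exact (GG.cube hX hX0).mul (GG.inv hα hα0 (EE hI b).2.1 hE0 (GG.small _))

end alg3

/-- the coefficient `D` -/
theorem DO_form (hI : I ^ 2 + I + 1 = 0) {D : Ei} (hD : (3 : Ei) ∣ D - 1) (hs : s2 D = 0) :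
    ∃ b : ℕ, (b : ZMod 3) = -((D.im / 3 : ℤ) : ZMod 3) ∧
    ∃ A₂ : OO I, evO hI D = 1 + mO hI ^ 3 * (-b + mO hI * A₂) := by
  obtain ⟨p, rfl⟩ := ex_form hD
  rw [s2_form, neg_eq_zero] at hs
  have h3 := m_sq hI
  have hi := i_rel hI
  have hm : mO hI = 1 + 2 * iO hI := rfl
  -- `re + im = 3 k`
  obtain ⟨k, hk⟩ : (3 : ℤ) ∣ p.re + p.im := (ZMod.intCast_zmod_eq_zero_iff_dvd _ 3).1 (by exact_mod_cast hs)
  have e2 : ((1 : Ei) + 3 * p).im / 3 = p.im := by
    rw [one_add_form]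
    show 3 * p.im / 3 = p.im
    omega
  obtain ⟨b, r, hb⟩ : ∃ (b : ℕ) (r : ℤ), p.im = -b + 3 * r := by
    refine ⟨(-p.im % 3).toNat, -(-p.im / 3), ?_⟩
    omega
  refine ⟨b, ?_, ?_⟩
  · rw [e2, hb]
    push_cast
    have h30 : (3 : ZMod 3) = 0 := by decide
    rw [h30]
    ring
  · have hev : evO hI (1 + 3 * p) = 1 + 3 * ((p.re : OO I) + p.im * iO hI) := by
      apply Subtype.ext
      have h1 : ((evO hI (1 + 3 * p) : OO I) : PadicAlgCl 3) = ev I hI (1 + 3 * p) := rfl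
      rw [h1, map_add, map_one, map_mul, map_ofNat]
      push_cast
      rw [coe_i]
      have h2 : ev I hI p = (p.re : PadicAlgCl 3) + p.im * I := by
        exact ev_apply I hI p
      rw [h2]
      have h3 : ((3 : OO I) : PadicAlgCl 3) = 3 := rfl
      rw [h3]
    have hre : ((p.re : ℤ) : OO I) = 3 * (k : OO I) - ((p.im : ℤ) : OO I) := by
      have h1 : p.re = 3 * k - p.im := by omega
      rw [h1]
      push_cast
      ring
    have him : ((p.im : ℤ) : OO I) = -(b : OO I) + 3 * (r : OO I) := by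
      rw [hb]
      push_cast
      ring
    have h9 : mO hI ^ 4 = 9 := by linear_combination (mO hI ^ 2 - 3) * h3
    refine ⟨(k : OO I) + ((p.im : ℤ) : OO I) * iO hI - mO hI * (r : OO I), ?_⟩
    rw [hev]
    linear_combination 3 * hre - ((k : OO I) + ((p.im : ℤ) : OO I) * iO hI) * h9 +
      mO hI ^ 3 * (r : OO I) * h3 + mO hI ^ 3 * him - ((p.im : ℤ) : OO I) * mO hI * h3 +
      3 * ((p.im : ℤ) : OO I) * hm

/-- **the conclusion for the class of an element of `ℤ[ω]`** -/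
theorem fin_class3 (hI : I ^ 2 + I + 1 = 0) {b : ℕ} {v q : Ei} {g t : ℕ}
    (hv : v = w ^ t ∨ v = -w ^ t)
    (h : GG hI 1 (ev I hI (w ^ 2 * (1 + 3 * b))) (ev I hI (v * lam ^ g * (1 + 3 * q)))) :
    3 ∣ g ∧ s2 (1 + 3 * q) = b * t := by
  obtain ⟨c, j, V, hV, hV0, ρ, e⟩ := h
  rw [one_pow, one_mul] at e
  obtain ⟨ε, hε, rfl⟩ : ∃ ε : Ei, (ε = 1 ∨ ε = -1) ∧ v = ε * w ^ t := by
    rcases hv with rfl | rfl
    · exact ⟨1, Or.inl rfl, by ring⟩
    · exact ⟨-1, Or.inr rfl, by ring⟩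
  have hq : (3 : Ei) ∣ (1 + 3 * q) - 1 := ⟨q, by ring⟩
  have hb : (3 : Ei) ∣ (1 + 3 * (b : Ei)) - 1 := ⟨b, by ring⟩
  obtain ⟨Q, hQ⟩ := ex_form (prm_mul' hq (prm_pow hb (2 * j)))
  have hs : s2 (1 + 3 * Q) = s2 (1 + 3 * q) + (2 * j : ℕ) * -(b : ZMod 3) := by
    rw [← hQ, s2_mul hq (prm_pow hb (2 * j)), s2_pow hb, s2_nat]
  have hwu : IsUnit w := IsUnit.of_mul_eq_one (w ^ 2) (by rw [← pow_succ', w_cube])
  have hεu : IsUnit ε := by
    rcases hε with rfl | rfl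
    · exact isUnit_one
    · exact isUnit_one.neg
  have hE : ev I hI (w ^ 2 * (1 + 3 * b)) ∈ Kl I := ev_mem hI _
  obtain ⟨h1, h2, h3⟩ := core_lemma hI (V := ev I hI (w ^ 2 * (1 + 3 * b)) ^ j * V) (ρ := ρ)
    (u := ε * w ^ (t + 4 * j)) (Q := Q) (g := g) (hεu.mul (hwu.pow _))
    (mul_mem (pow_mem hE _) hV) (by
      have e1 : ε * w ^ (t + 4 * j) * lam ^ g * (1 + 3 * Q) =
          (ε * w ^ t * lam ^ g * (1 + 3 * q)) * (w ^ 2 * (1 + 3 * b)) ^ (2 * j) := by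
        rw [← hQ]
        have e2 : w ^ (t + 4 * j) = w ^ t * (w ^ 2) ^ (2 * j) := by
          rw [← pow_mul, ← pow_add]
          congr 1
          ring
        rw [e2, mul_pow]
        ring
      have e3 : ev I hI ((ε * w ^ t * lam ^ g * (1 + 3 * q)) * (w ^ 2 * (1 + 3 * b)) ^ (2 * j)) =
            ev I hI (ε * w ^ t * lam ^ g * (1 + 3 * q)) *
            ev I hI (w ^ 2 * (1 + 3 * b)) ^ (2 * j) := by
        rw [← map_pow, ← map_mul]
      rw [e1, e3, e]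
      ring)
  have hT : 3 ∣ t + 4 * j := by
    apply w_pow
    rcases hε with rfl | rfl
    · rw [one_mul] at h2
      exact h2
    · rcases h2 with h4 | h4
      · right
        linear_combination -h4
      · left
        linear_combination -h4
  refine ⟨h1, ?_⟩
  rw [s2_lam h3] at hs
  have hT' : (((t + 4 * j : ℕ)) : ZMod 3) = 0 := (ZMod.natCast_eq_zero_iff _ _).2 hT
  push_cast at hT' hs
  generalize s2 (1 + 3 * q) = s at *
  generalize (t : ZMod 3) = t' at *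
  generalize (j : ZMod 3) = j' at *
  generalize (b : ZMod 3) = b' at *
  have h30 : (3 : ZMod 3) = 0 := by decide
  linear_combination -hs + 2 * b' * hT' - (b' * t' + 2 * b' * j') * h30

section final

variable {i₀ : QB} {hi : i₀ ^ 2 + i₀ + 1 = 0} {D : Ei} {u : QB} {a h : GK i₀ → ZMod 3}
  {ι : QB →ₐ[ℚ] PadicAlgCl 3} {R : Pt (PadicAlgCl 3)}

theorem coreM3 (hD3 : (3 : Ei) ∣ D - 1) (hsD : s2 D = 0) (hT : Tw hi D u a)
    {v q : Ei} {g t : ℕ} (hv : v = w ^ t ∨ v = -w ^ t) (hK : Kc hi (v * lam ^ g * (1 + 3 * q)) h)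
    (hS : St1 hi ι a h R) : 3 ∣ g ∧ s2 (1 + 3 * q) = -(((D.im / 3 : ℤ) : ZMod 3) * t) := by
  have hI := iota_sq' hi ι
  have hI3 : ι i₀ ^ 3 = 1 := by linear_combination (ι i₀ - 1) * hI
  obtain ⟨b, hb, A₂, hA₂⟩ := DO_form hI hD3 hsD
  obtain ⟨α, hα⟩ : ∃ α, α = ev (ι i₀) hI D := ⟨_, rfl⟩
  have hAc : ((evO hI D : OO (ι i₀)) : PadicAlgCl 3) = α := hα.symm
  have hwu : IsUnit w := IsUnit.of_mul_eq_one (w ^ 2) (by rw [← pow_succ', w_cube])
  have hD0 : D ≠ 0 := by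
    rintro rfl
    rw [zero_sub, dvd_neg] at hD3
    have h1 : (((3 : ℤ) : Ei)) ∣ ((1 : ℤ) : Ei) := by exact_mod_cast hD3
    rw [Pool.Agent.Y692.QS.int_dvd_int] at h1
    omega
  have hα0 : α ≠ 0 := by
    rw [hα]
    exact ev_ne hI hD0
  have hαm : α ∈ Kl (ι i₀) := by rw [hα]; exact ev_mem hI _
  have hE0 : ((EE hI b : OO (ι i₀)) : PadicAlgCl 3) ≠ 0 := by
    rw [← norm_pos_iff, EE_norm]
    exact one_pos
  have hU3 : ι u ^ 3 = α := by
    rw [← map_pow, hT.cube, iota_ev' hi ι, hα]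
  have hU0 : ι u ≠ 0 := by
    intro h0
    rw [h0, zero_pow three_ne_zero] at hU3
    exact hα0 hU3.symm
  -- the cube root
  obtain ⟨s, hs⟩ := IsAlgClosed.exists_pow_nat_eq (ev i₀ hi (v * lam ^ g * (1 + 3 * q)))
    (n := 3) (by norm_num)
  have hZ : ι s ^ 3 = ev (ι i₀) hI (v * lam ^ g * (1 + 3 * q)) := by
    rw [← map_pow, hs, iota_ev' hi ι]
  have hts : ∀ (τ : Au 3) (σ : GK i₀), Cmp ι τ σ → τ (ι s) = ι i₀ ^ (h σ).val * ι s := by
    intro τ σ hc
    rw [hc, hK s hs σ, map_mul, map_pow]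
  have hv0 : v ≠ 0 := by
    rcases hv with rfl | rfl
    · exact pow_ne_zero _ hwu.ne_zero
    · exact neg_ne_zero.2 (pow_ne_zero _ hwu.ne_zero)
  have hz0 : v * lam ^ g * (1 + 3 * q) ≠ 0 := by
    refine mul_ne_zero (mul_ne_zero hv0 (pow_ne_zero _ prime_lam.ne_zero)) ?_
    intro h0
    have h1 : ev (ι i₀) hI (1 + 3 * q) = 0 := by rw [h0, map_zero]
    rw [map_add, map_one, map_mul, map_ofNat] at h1
    exact one_add_ne (ev_le hI q) h1
  have hZ0 : ι s ^ 3 ≠ 0 := by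
    rw [hZ]
    exact ev_ne hI hz0
  have hs0 : ι s ≠ 0 := fun h0 => hZ0 (by rw [h0, zero_pow three_ne_zero])
  have hZm : ι s ^ 3 ∈ Kl (ι i₀) := by rw [hZ]; exact ev_mem hI _
  -- it suffices to know the class
  have hsmall : GG hI 1 ((EE hI b : OO (ι i₀)) : PadicAlgCl 3) α := by
    rw [← hAc, hA₂]
    exact GG.small _
  suffices hG : GG hI 1 ((EE hI b : OO (ι i₀)) : PadicAlgCl 3) (ι s ^ 3) by
    rw [EE_coe, hZ] at hG
    obtain ⟨h1, h2⟩ := fin_class3 hI hv hG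
    refine ⟨h1, ?_⟩
    rw [h2, hb]
    ring
  by_cases hQ0 : R - im (isE _) hI R = 0
  · -- `R` is a multiple of `T`
    obtain ⟨c, hc⟩ := ker_tt hI hQ0
    have hm : ι s ∈ Kl (ι i₀) := by
      intro τ hτ
      obtain ⟨σ, hcm⟩ := exists_cmp ι τ hτ
      have h1 := hS τ σ hcm
      rw [hc, pm_tt, jj_tt, sub_self] at h1
      have h2 := tt_eq_zero.1 h1.symm
      rw [hts τ σ hcm, h2, ZMod.val_zero, pow_zero, one_mul]
    exact GG.cube hm hs0
  · obtain ⟨x, y, hn, hR⟩ : ∃ x y, ∃ hn : (W0.baseChange (PadicAlgCl 3)).toAffine.Nonsingular x y,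
        R = .some x y hn := by
      rcases R with _ | ⟨x, y, hn⟩
      · exfalso
        apply hQ0
        show (0 : Pt (PadicAlgCl 3)) - im (isE _) hI 0 = 0
        rw [map_zero, sub_zero]
      · exact ⟨x, y, hn, rfl⟩
    have he := ((isE _).eqn x y).1 hn.1
    have hx : x ≠ 0 := by
      intro h0
      apply hQ0
      rw [hR, im_some, sub_eq_zero, WeierstrassCurve.Affine.Point.some.injEq]
      exact ⟨by rw [h0, mul_zero], rfl⟩
    obtain ⟨XQ, hnQ, eQ⟩ : ∃ XQ, ∃ hnQ : (W0.baseChange (PadicAlgCl 3)).toAffine.Nonsingular XQ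
        (gg (ι i₀) R ^ 3), R - im (isE _) hI R = .some XQ _ hnQ := by
      rw [hR]
      obtain ⟨XQ, hnQ, eQ, -⟩ := one_sub_im (isE _) hI hn hx
      exact ⟨XQ, hnQ, eQ⟩
    by_cases hG : gg (ι i₀) R = 0
    · -- `R - J R = T`
      have hlam := lam_ne (isE (PadicAlgCl 3)) hI
      have hy : y = ι i₀ ^ 2 := by
        rw [hR, gg_some, div_eq_zero_iff] at hG
        rcases hG with h1 | h1
        · exact sub_eq_zero.1 h1
        · exact absurd h1 (mul_ne_zero hlam hx)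
      have h0 := (isE (PadicAlgCl 3)).neg_nons hn
      have hR' : -R = .some x (-y - 1) h0 := by
        rw [hR]
        exact (isE _).neg_eq hn h0
      have hgg : gg (ι i₀) (-R) = 1 / x := by
        rw [hR', gg_some, hy, div_eq_div_iff (mul_ne_zero hlam hx) hx]
        linear_combination (-2 * x) * hI
      have hx3 : x ^ 3 = -1 := by
        rw [← he, hy]
        linear_combination (ι i₀ ^ 2 - ι i₀ + 1) * hI
      have hW3 : (ι u * gg (ι i₀) (-R)) ^ 3 = (-1) ^ 3 * α := by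
        rw [hgg, mul_pow, hU3, div_pow, hx3]
        ring
      have hW0 : ι u * gg (ι i₀) (-R) ≠ 0 := by
        rw [hgg]
        exact mul_ne_zero hU0 (div_ne_zero one_ne_zero hx)
      obtain ⟨W, hW⟩ : ∃ W, W = ι u * gg (ι i₀) (-R) := ⟨_, rfl⟩
      have hm : ι s / W ∈ Kl (ι i₀) := by
        rw [hW]
        intro τ hτ
        obtain ⟨σ, hcm⟩ := exists_cmp ι τ hτ
        rw [map_div₀, hts τ σ hcm, tau_g hT (st1_neg hS) hR' hx hcm]
        have h1 := pow_three hI (-h σ)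
        rw [neg_neg] at h1
        rw [← h1, mul_div_mul_left]
        exact pow_ne_zero _ (I_ne (isE (PadicAlgCl 3)) hI)
      rw [← hW] at hW3 hW0
      have hd3 : ι s ^ 3 = (ι s / W) ^ 3 * ((-1) ^ 3 * α) := by
        rw [← hW3, ← mul_pow, div_mul_cancel₀ _ hW0]
      rw [hd3]
      exact (GG.cube hm (div_ne_zero hs0 hW0)).mul
        ((GG.cube (neg_mem (one_mem _)) (neg_ne_zero.2 one_ne_zero)).mul hsmall)
    · -- the general case
      have hW0 : ι u * gg (ι i₀) R ≠ 0 := mul_ne_zero hU0 hG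
      have hm : ι s * (ι u * gg (ι i₀) R) ∈ Kl (ι i₀) := by
        intro τ hτ
        obtain ⟨σ, hcm⟩ := exists_cmp ι τ hτ
        rw [map_mul, hts τ σ hcm, tau_g hT hS hR hx hcm]
        have h1 := pow_cancel hI (h σ)
        linear_combination (ι s * (ι u * gg (ι i₀) R)) * h1
      obtain ⟨W, hW⟩ : ∃ W, W = ι u * gg (ι i₀) R := ⟨_, rfl⟩
      rw [← hW] at hm hW0
      have hYm : W ^ 3 ∈ Kl (ι i₀) := by
        have e : W ^ 3 = (ι s * W) ^ 3 / ι s ^ 3 := by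
          rw [mul_pow, mul_div_cancel_left₀ _ hZ0]
        rw [e]
        exact div_mem (pow_mem hm 3) hZm
      have hXm : ι u ^ 2 * XQ ∈ Kl (ι i₀) := tau_X hT hS eQ
      have heq := ((isE _).eqn _ _).1 hnQ.1
      have heY : (W ^ 3) ^ 2 + α * W ^ 3 = (ι u ^ 2 * XQ) ^ 3 := by
        rw [hW, ← hU3]
        linear_combination (ι u ^ 6) * heq
      have hY := ord3 hI hA₂ (α := 1) (one_mem _) one_ne_zero hXm hYm (pow_ne_zero 3 hW0)
        (by rw [hAc]; exact heY)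
      have e3 : ι s ^ 3 = (ι s * W) ^ 3 * (W ^ 3)⁻¹ := by
        rw [mul_pow, mul_assoc, mul_inv_cancel₀ (pow_ne_zero 3 hW0), mul_one]
      rw [e3]
      exact (GG.cube hm (mul_ne_zero hs0 hW0)).mul (GG.inv (one_mem _) one_ne_zero (EE hI b).2.1 hE0 hY)

end final

end Pool.Agent.E8helper73.CTM
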