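import Pool.Agent.E8helper20.CTM.StmX
import Pool.Agent.E8helper73.CTM.LocX

/-!
# Project CTM: X3 LOCM3, the local condition at `3` for `a = D`, `D = 1` modulo `3 √-3`
-/

set_option autoImplicit false

namespace Pool.Agent.E8helper73.CTM

/-- **X3 LOCM3** -/
theorem t_LOCM3 : Pool.Agent.E8helper20.CTM.S_LOCM3 := by
  intro i₀ hi D hD hc u a hT h v q g t hv hK hF ι R hS
  exact coreM3 hD hc hT hv hK hS

end Pool.Agent.E8helper73.CTM
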