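import Pool.Agent.Y180.CT.Loc3

/-!
# Project CTM (LOCM2): the solutions of `y (y + a) = x³` over `ℚ₃(ω)`, `a = √-3 ω ^ b (1 + 3 d)`
-/

set_option autoImplicit false
set_option linter.unusedSectionVars false
set_option linter.unusedVariables false

namespace Pool.Agent.E8helper73.CTM

open Pool.Agent.Y692.QS
open Pool.Agent.Y715.T.Gi Pool.Agent.Y715.T.Nr Pool.Agent.Y715.T.Df Pool.Agent.Y715.T.Ell
open Pool.Agent.Y715.T.Red Pool.Agent.Y715.T.Thr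
open Pool.Agent.Y180.CT

open scoped Classical

variable {I : PadicAlgCl 3}

/-! ### The ring of integers -/

/-- integral elements -/
noncomputable def OO (I : PadicAlgCl 3) : Subring (PadicAlgCl 3) where
  carrier := {z | z ∈ Kl I ∧ ‖z‖ ≤ 1}
  mul_mem' {a b} ha hb := ⟨mul_mem ha.1 hb.1, mul_le ha.2 hb.2⟩
  one_mem' := ⟨one_mem _, by rw [norm_one]⟩
  add_mem' {a b} ha hb := ⟨add_mem ha.1 hb.1, add_le ha.2 hb.2⟩
  zero_mem' := ⟨zero_mem _, by rw [norm_zero]; exact zero_le_one⟩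
  neg_mem' {a} ha := ⟨neg_mem ha.1, by rw [norm_neg]; exact ha.2⟩

/-- the root of unity -/
noncomputable def iO (hI : I ^ 2 + I + 1 = 0) : OO I := ⟨I, fun τ h => h, (norm_I hI).le⟩

/-- the uniformizer -/
noncomputable def mO (hI : I ^ 2 + I + 1 = 0) : OO I := 1 + 2 * iO hI

theorem coe_i (hI : I ^ 2 + I + 1 = 0) : ((iO hI : OO I) : PadicAlgCl 3) = I := rfl

theorem coe_m (hI : I ^ 2 + I + 1 = 0) : ((mO hI : OO I) : PadicAlgCl 3) = 1 + 2 * I := by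
  unfold mO
  push_cast
  rw [coe_i]
  rfl

theorem i_rel (hI : I ^ 2 + I + 1 = 0) : iO hI ^ 2 + iO hI + 1 = 0 := by
  apply Subtype.ext
  push_cast
  rw [coe_i]
  exact hI

theorem m_sq (hI : I ^ 2 + I + 1 = 0) : mO hI ^ 2 = -3 := by
  unfold mO
  linear_combination 4 * i_rel hI

theorem m_pos (hI : I ^ 2 + I + 1 = 0) : 0 < ‖((mO hI : OO I) : PadicAlgCl 3)‖ := by
  rw [coe_m]
  exact lam_pos hI

theorem m_lt (hI : I ^ 2 + I + 1 = 0) : ‖((mO hI : OO I) : PadicAlgCl 3)‖ < 1 := by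
  rw [coe_m]
  exact norm_lam_lt hI

theorem m_ne (hI : I ^ 2 + I + 1 = 0) : mO hI ≠ 0 := by
  intro h
  have := m_pos hI
  rw [h] at this
  simp at this

theorem m_ne' (hI : I ^ 2 + I + 1 = 0) : ((mO hI : OO I) : PadicAlgCl 3) ≠ 0 :=
  norm_pos_iff.1 (m_pos hI)

theorem nu (hI : I ^ 2 + I + 1 = 0) (y : OO I) : 1 ≠ mO hI * y := by
  intro h
  have h1 : ‖((1 : OO I) : PadicAlgCl 3)‖ = ‖((mO hI * y : OO I) : PadicAlgCl 3)‖ := by rw [← h]
  push_cast at h1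
  rw [norm_one, norm_mul] at h1
  have h2 := m_lt hI
  have h3 := y.2.2
  have h4 := m_pos hI
  nlinarith [norm_nonneg (y : PadicAlgCl 3)]

theorem two_ne (hI : I ^ 2 + I + 1 = 0) (y : OO I) : 2 ≠ mO hI * y := by
  intro h
  exact nu hI (-mO hI - y) (by linear_combination m_sq hI - h)

theorem lift_m (hI : I ^ 2 + I + 1 = 0) {z : PadicAlgCl 3} (h : z ∈ Kl I) (hz : ‖z‖ < 1) :
    ∃ y : OO I, z = (mO hI : OO I) * y := by
  obtain ⟨w, hw, hw1, e⟩ := lam_div hI h hz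
  exact ⟨⟨w, hw, hw1⟩, by rw [coe_m]; exact e⟩

theorem res_unit (hI : I ^ 2 + I + 1 = 0) (y : OO I) (hy : ‖(y : PadicAlgCl 3)‖ = 1) :
    ∃ ε : OO I, (ε = 1 ∨ ε = -1) ∧ ∃ y' : OO I, y = ε + mO hI * y' := by
  rcases residue3 hI y.2.2 y.2.1 with h | h | h
  · rw [hy] at h
    exact absurd h (lt_irrefl _)
  · obtain ⟨y', e⟩ := lift_m hI (sub_mem y.2.1 (one_mem _)) h
    refine ⟨1, Or.inl rfl, y', Subtype.ext ?_⟩
    push_cast
    linear_combination e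
  · obtain ⟨y', e⟩ := lift_m hI (add_mem y.2.1 (one_mem _)) h
    refine ⟨-1, Or.inr rfl, y', Subtype.ext ?_⟩
    push_cast
    linear_combination e

theorem cube_unit (hI : I ^ 2 + I + 1 = 0) (x : OO I) (hx : ‖(x : PadicAlgCl 3)‖ = 1) :
    ∃ δ : OO I, (δ = 1 ∨ δ = -1) ∧ ∃ ρ : OO I, x ^ 3 = δ + mO hI ^ 3 * ρ := by
  obtain ⟨δ, hδ, ξ, e⟩ := res_unit hI x hx
  have h3 := m_sq hI
  refine ⟨δ, hδ, -ξ - δ * mO hI * ξ ^ 2 + ξ ^ 3, ?_⟩
  rw [e]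
  rcases hδ with rfl | rfl
  · linear_combination (mO hI * ξ + mO hI ^ 2 * ξ ^ 2) * h3
  · linear_combination (mO hI * ξ - mO hI ^ 2 * ξ ^ 2) * h3

/-- inverses of units -/
theorem unit_inv (y : OO I) (hy : ‖(y : PadicAlgCl 3)‖ = 1) : ∃ y' : OO I, y * y' = 1 ∧
    ‖(y' : PadicAlgCl 3)‖ = 1 := by
  have h0 : (y : PadicAlgCl 3) ≠ 0 := by
    rw [← norm_pos_iff, hy]
    exact one_pos
  have h1 : ‖(y : PadicAlgCl 3)⁻¹‖ = 1 := by rw [norm_inv, hy, inv_one]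
  refine ⟨⟨(y : PadicAlgCl 3)⁻¹, inv_mem y.2.1, h1.le⟩, Subtype.ext ?_, h1⟩
  push_cast
  exact mul_inv_cancel₀ h0

theorem norm_small (hI : I ^ 2 + I + 1 = 0) (y : OO I) :
    ‖((1 + mO hI * y : OO I) : PadicAlgCl 3)‖ = 1 := by
  push_cast
  rw [eq_of_lt, norm_one]
  rw [norm_one, norm_mul]
  have h2 := m_lt hI
  have h3 := y.2.2
  have h4 := m_pos hI
  nlinarith [norm_nonneg (y : PadicAlgCl 3)]

/-! ### Classes -/

/-- the group generated by `α`, `E`, the cubes and `1 + m³ O` -/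
def GG (hI : I ^ 2 + I + 1 = 0) (α E z : PadicAlgCl 3) : Prop :=
  ∃ c j : ℕ, ∃ V ∈ Kl I, V ≠ 0 ∧ ∃ ρ : OO I, z = α ^ c * E ^ j * V ^ 3 * (1 + mO hI ^ 3 * ρ : OO I)

variable {α E : PadicAlgCl 3}

theorem GG.mul {hI : I ^ 2 + I + 1 = 0} {z z' : PadicAlgCl 3} (h : GG hI α E z)
    (h' : GG hI α E z') : GG hI α E (z * z') := by
  obtain ⟨c, j, V, hV, hV0, ρ, rfl⟩ := h
  obtain ⟨c', j', V', hV', hV0', ρ', rfl⟩ := h'
  refine ⟨c + c', j + j', V * V', mul_mem hV hV', mul_ne_zero hV0 hV0',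
    ρ + ρ' + mO hI ^ 3 * ρ * ρ', ?_⟩
  push_cast
  ring

theorem GG.inv {hI : I ^ 2 + I + 1 = 0} (hα : α ∈ Kl I) (hα0 : α ≠ 0) (hE : E ∈ Kl I)
    (hE0 : E ≠ 0) {z : PadicAlgCl 3} (h : GG hI α E z) : GG hI α E z⁻¹ := by
  obtain ⟨c, j, V, hV, hV0, ρ, rfl⟩ := h
  obtain ⟨x, hx, -⟩ := unit_inv (1 + mO hI * (mO hI ^ 2 * ρ)) (norm_small hI _)
  have hx' : ((1 + mO hI ^ 3 * ρ : OO I) : PadicAlgCl 3) * (x : PadicAlgCl 3) = 1 := by
    have h1 : (((1 + mO hI * (mO hI ^ 2 * ρ)) * x : OO I) : PadicAlgCl 3) = 1 := by rw [hx]; rfl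
    push_cast at h1 ⊢
    linear_combination h1
  have hne : ((1 + mO hI ^ 3 * ρ : OO I) : PadicAlgCl 3) ≠ 0 := left_ne_zero_of_mul_eq_one hx'
  refine ⟨2 * c, 2 * j, (α ^ c * E ^ j * V)⁻¹, inv_mem (mul_mem (mul_mem (pow_mem hα _)
    (pow_mem hE _)) hV), inv_ne_zero (mul_ne_zero (mul_ne_zero (pow_ne_zero _ hα0)
    (pow_ne_zero _ hE0)) hV0), -ρ * x, ?_⟩
  have e1 : ((1 + mO hI ^ 3 * (-ρ * x) : OO I) : PadicAlgCl 3) = x := by
    push_cast at hx' ⊢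
    linear_combination -hx'
  rw [e1, eq_comm, ← mul_left_inj' hne]
  rw [inv_mul_eq_div, mul_assoc _ (x : PadicAlgCl 3), mul_comm (x : PadicAlgCl 3), hx', mul_one]
  have hα' : α ^ c ≠ 0 := pow_ne_zero _ hα0
  have hE' : E ^ j ≠ 0 := pow_ne_zero _ hE0
  rw [pow_mul', pow_mul']
  field_simp

theorem GG.cube {hI : I ^ 2 + I + 1 = 0} {V : PadicAlgCl 3} (hV : V ∈ Kl I) (hV0 : V ≠ 0) :
    GG hI α E (V ^ 3) := ⟨0, 0, V, hV, hV0, 0, by simp⟩

theorem GG.gen1 {hI : I ^ 2 + I + 1 = 0} : GG hI α E α :=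
  ⟨1, 0, 1, one_mem _, one_ne_zero, 0, by simp⟩

theorem GG.gen2 {hI : I ^ 2 + I + 1 = 0} (j : ℕ) : GG hI α E (E ^ j) :=
  ⟨0, j, 1, one_mem _, one_ne_zero, 0, by simp⟩

theorem GG.small {hI : I ^ 2 + I + 1 = 0} (ρ : OO I) :
    GG hI α E ((1 + mO hI ^ 3 * ρ : OO I) : PadicAlgCl 3) :=
  ⟨0, 0, 1, one_mem _, one_ne_zero, ρ, by simp⟩

theorem GG.sign {hI : I ^ 2 + I + 1 = 0} {ε : OO I} (hε : ε = 1 ∨ ε = -1) :
    GG hI α E (ε : PadicAlgCl 3) := by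
  rcases hε with rfl | rfl
  · have := GG.cube (hI := hI) (α := α) (E := E) (V := 1) (one_mem _) one_ne_zero
    simpa using this
  · have := GG.cube (hI := hI) (α := α) (E := E) (V := -1) (neg_mem (one_mem _))
      (neg_ne_zero.2 one_ne_zero)
    have e : ((-1 : PadicAlgCl 3)) ^ 3 = -1 := by ring
    rw [e] at this
    simpa using this

/-! ### The second generator -/

/-- the second generator `ω² (1 + 3 b)` -/
noncomputable def EE (hI : I ^ 2 + I + 1 = 0) (b : ℕ) : OO I := iO hI ^ 2 * (1 + 3 * b)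

theorem EE_norm (hI : I ^ 2 + I + 1 = 0) (b : ℕ) : ‖((EE hI b : OO I) : PadicAlgCl 3)‖ = 1 := by
  unfold EE
  push_cast
  rw [norm_mul, norm_pow, coe_i, norm_I hI, one_pow, one_mul]
  exact norm_one_add (z := (b : PadicAlgCl 3)) (by
    have : ‖(((b : ℤ)) : PadicAlgCl 3)‖ ≤ 1 := IsUltrametricDist.norm_intCast_le_one _ b
    simpa using this)

theorem EE_eq (hI : I ^ 2 + I + 1 = 0) (b : ℕ) : EE hI b = 1 + mO hI + (2 - b) * mO hI ^ 2 +
    mO hI ^ 3 * (-1 - mO hI * iO hI - b - b * mO hI * (1 + iO hI)) := by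
  unfold EE mO
  obtain ⟨i, hi⟩ : ∃ i, i = iO hI := ⟨_, rfl⟩
  have h := i_rel hI
  rw [← hi] at h ⊢
  have h2 : i ^ 2 = -1 - i := by linear_combination h
  have h3 : i ^ 3 = 1 := by linear_combination (i - 1) * h
  have h4 : i ^ 4 = i := by linear_combination i * h3
  have h5 : i ^ 5 = -1 - i := by linear_combination i ^ 2 * h3 + h2
  ring_nf
  simp only [h2, h3, h4, h5]
  ring

/-- the elements of the second class -/
theorem GG.two {hI : I ^ 2 + I + 1 = 0} (b : ℕ) {ε : OO I} (hε : ε = 1 ∨ ε = -1) (κ : OO I) :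
    GG hI α (EE hI b : OO I)
      ((1 + ε * mO hI + mO hI ^ 2 * (2 - ε * b) + mO hI ^ 3 * κ : OO I) : PadicAlgCl 3) := by
  obtain ⟨E', hE', -⟩ := unit_inv (EE hI b) (EE_norm hI b)
  have hEq := EE_eq hI b
  have h3 := m_sq hI
  rcases hε with rfl | rfl
  · set e3 := -1 - mO hI * iO hI - b - b * mO hI * (1 + iO hI) with he3
    have e : (1 + 1 * mO hI + mO hI ^ 2 * (2 - 1 * b) + mO hI ^ 3 * κ : OO I) =
        EE hI b ^ 1 * (1 + mO hI ^ 3 * (E' * (κ - e3))) := by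
      linear_combination (-mO hI ^ 3 * (κ - e3)) * hE' - hEq
    rw [e]
    push_cast
    have := (GG.gen2 (hI := hI) (α := α) (E := (EE hI b : OO I)) 1).mul (GG.small (E' * (κ - e3)))
    push_cast at this
    exact this
  · set e3 := -1 - mO hI * iO hI - b - b * mO hI * (1 + iO hI) with he3
    have hsq : EE hI b ^ 2 = 1 - mO hI + mO hI ^ 2 * (2 + b) + mO hI ^ 3 * (-1 - mO hI * (1 - b) +
        2 * (2 - b) + 2 * e3 + mO hI * (2 - b) ^ 2 + 2 * mO hI * e3 + 2 * mO hI ^ 2 * (2 - b) * e3 +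
        mO hI ^ 3 * e3 ^ 2) := by
      rw [hEq]
      linear_combination (mO hI * (1 : OO I) + mO hI ^ 2 * (1 - b)) * h3
    set f3 := (-1 - mO hI * (1 - b) +
        2 * (2 - b) + 2 * e3 + mO hI * (2 - b) ^ 2 + 2 * mO hI * e3 + 2 * mO hI ^ 2 * (2 - b) * e3 +
        mO hI ^ 3 * e3 ^ 2) with hf3
    have e : (1 + -1 * mO hI + mO hI ^ 2 * (2 - -1 * b) + mO hI ^ 3 * κ : OO I) =
        EE hI b ^ 2 * (1 + mO hI ^ 3 * (E' ^ 2 * (κ - f3))) := by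
      have hE2 : EE hI b ^ 2 * E' ^ 2 = 1 := by rw [← mul_pow, hE', one_pow]
      linear_combination (-mO hI ^ 3 * (κ - f3)) * hE2 - hsq
    rw [e]
    push_cast
    have := (GG.gen2 (hI := hI) (α := α) (E := (EE hI b : OO I)) 2).mul
      (GG.small (E' ^ 2 * (κ - f3)))
    push_cast at this
    exact this

end Pool.Agent.E8helper73.CTM
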