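import Pool.Agent.E8helper73.CTM.LocA

/-!
# Project CTM (LOCM2): the solutions of `y (y + a) = x³` over `ℚ₃(ω)`, `a = √-3 ω ^ b (1 + 3 d)`
-/

set_option autoImplicit false
set_option linter.unusedSectionVars false
set_option linter.unusedVariables false

namespace Pool.Agent.E8helper73.CTM

open Pool.Agent.Y692.QS
open Pool.Agent.Y715.T.Gi Pool.Agent.Y715.T.Nr Pool.Agent.Y715.T.Df Pool.Agent.Y715.T.Ell
open Pool.Agent.Y715.T.Red Pool.Agent.Y715.T.Thr
open Pool.Agent.Y180.CT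

open scoped Classical

variable {I : PadicAlgCl 3}

section alg

variable (hI : I ^ 2 + I + 1 = 0) {b : ℕ} {A A₂ : OO I}
  (hA : A = 1 - b * mO hI + mO hI ^ 2 * A₂)

include hA

theorem A_norm : ‖(A : PadicAlgCl 3)‖ = 1 := by
  have e : A = 1 + mO hI * (-b + mO hI * A₂) := by rw [hA]; ring
  rw [e]
  exact norm_small hI _

/-- `y` is a unit -/
theorem unit_case {y x : OO I} (hy : ‖(y : PadicAlgCl 3)‖ = 1) (hx : ‖(x : PadicAlgCl 3)‖ = 1)
    (h : y ^ 2 + mO hI * A * y = x ^ 3) :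
    GG hI ((mO hI * A : OO I) : PadicAlgCl 3) (EE hI b : OO I) y := by
  obtain ⟨ε, hε, η, ey⟩ := res_unit hI y hy
  obtain ⟨δ, hδ, ρ, ex⟩ := cube_unit hI x hx
  have h3 := m_sq hI
  have hm0 := m_ne hI
  have hε2 : ε ^ 2 = 1 := by rcases hε with rfl | rfl <;> ring
  rw [ey, ex] at h
  have hδ1 : δ = 1 := by
    rcases hδ with h1 | h1
    · exact h1
    · exfalso
      subst h1
      refine two_ne hI (mO hI ^ 2 * ρ - 2 * ε * η - mO hI * η ^ 2 - A * (ε + mO hI * η)) ?_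
      linear_combination h - hε2
  subst hδ1
  obtain ⟨A₁, hA₁⟩ : ∃ A₁, A₁ = -(b : OO I) + mO hI * A₂ := ⟨_, rfl⟩
  have hA' : A = 1 + mO hI * A₁ := by rw [hA, hA₁]; ring
  have E2 : 2 * ε * η + mO hI * η ^ 2 + A * (ε + mO hI * η) = mO hI ^ 2 * ρ := by
    apply mul_left_cancel₀ hm0
    linear_combination h - hε2
  obtain ⟨η₁, hη₁⟩ : ∃ η₁, η₁ = A₁ + ε * η ^ 2 + ε * A * η - mO hI * η - ε * mO hI * ρ := ⟨_, rfl⟩
  have E3 : η = 1 + mO hI * η₁ := by
    rw [hη₁]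
    linear_combination (-ε) * E2 + (2 * η + A) * hε2 + hA' + η * h3
  obtain ⟨η₂, hη₂⟩ : ∃ η₂, η₂ = A₂ + ε * (2 * η₁ + mO hI * η₁ ^ 2) +
    ε * (A₁ + η₁ + mO hI * A₁ * η₁) - η - ε * ρ := ⟨_, rfl⟩
  have E4 : η₁ = 2 * ε - b + mO hI * η₂ := by
    have e1 : η ^ 2 = 1 + mO hI * (2 * η₁ + mO hI * η₁ ^ 2) := by rw [E3]; ring
    have e2 : A * η = 1 + mO hI * (A₁ + η₁ + mO hI * A₁ * η₁) := by
      rw [hA']
      conv_lhs => rw [E3]
      ring
    rw [hη₂]
    linear_combination hη₁ + hA₁ + ε * e1 + ε * e2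
  have E5 : y = ε * (1 + ε * mO hI + mO hI ^ 2 * (2 - ε * b) + mO hI ^ 3 * (ε * η₂)) := by
    rw [ey]
    linear_combination mO hI * E3 + mO hI ^ 2 * E4 + (-mO hI + mO hI ^ 2 * b - mO hI ^ 3 * η₂) * hε2
  rw [E5, Subring.coe_mul]
  exact (GG.sign hε).mul (GG.two b hε (ε * η₂))

/-- `s = m σ` -/
theorem sigma_case {σ x : OO I} (hσ : ‖(σ : PadicAlgCl 3)‖ = 1) (hx : ‖(x : PadicAlgCl 3)‖ = 1)
    (h : σ * (1 + mO hI * σ) * A ^ 2 = x ^ 3) {α : PadicAlgCl 3} :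
    GG hI α (EE hI b : OO I) ((1 + mO hI * σ : OO I) : PadicAlgCl 3) := by
  obtain ⟨ε, hε, σ₁, es⟩ := res_unit hI σ hσ
  obtain ⟨δ, hδ, ρ, ex⟩ := cube_unit hI x hx
  have h3 := m_sq hI
  have hm0 := m_ne hI
  have hε2 : ε ^ 2 = 1 := by rcases hε with rfl | rfl <;> ring
  obtain ⟨A₁, hA₁⟩ : ∃ A₁, A₁ = -(b : OO I) + mO hI * A₂ := ⟨_, rfl⟩
  have hA' : A = 1 + mO hI * A₁ := by rw [hA, hA₁]; ring
  rw [ex, es, hA'] at h
  obtain ⟨Q, hQ⟩ : ∃ Q, Q = (2 * ε * σ₁ + 2 * A₁ * (1 + σ₁) + ε * A₁ ^ 2) +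
    mO hI * (σ₁ ^ 2 + 4 * ε * σ₁ * A₁ + (1 + σ₁) * A₁ ^ 2) +
    mO hI ^ 2 * (2 * A₁ * σ₁ ^ 2 + 2 * ε * σ₁ * A₁ ^ 2) + mO hI ^ 3 * σ₁ ^ 2 * A₁ ^ 2 := ⟨_, rfl⟩
  have hexp : (ε + mO hI * σ₁) * (1 + mO hI * (ε + mO hI * σ₁)) * (1 + mO hI * A₁) ^ 2 =
      ε + mO hI * (1 + σ₁ + 2 * ε * A₁) + mO hI ^ 2 * Q := by
    rw [hQ]
    linear_combination (mO hI * (1 + mO hI * A₁) ^ 2) * hε2
  rw [hexp] at h
  have hδ1 : δ = ε := by
    rcases hδ with rfl | rfl <;> rcases hε with rfl | rfl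
    · rfl
    · exfalso
      refine two_ne hI ((1 + σ₁ + 2 * -1 * A₁) + mO hI * Q - mO hI ^ 2 * ρ) ?_
      linear_combination -h
    · exfalso
      refine two_ne hI (mO hI ^ 2 * ρ - (1 + σ₁ + 2 * 1 * A₁) - mO hI * Q) ?_
      linear_combination h
    · rfl
  subst hδ1
  have E2 : 1 + σ₁ + 2 * δ * A₁ + mO hI * Q = mO hI ^ 2 * ρ := by
    apply mul_left_cancel₀ hm0
    linear_combination h
  have E5 : 1 + mO hI * σ = 1 + δ * mO hI + mO hI ^ 2 * (2 - δ * b) +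
      mO hI ^ 3 * (mO hI * ρ - Q - 2 * δ * A₂ - mO hI * (-1 + δ * b)) := by
    rw [es]
    linear_combination mO hI ^ 2 * E2 - 2 * δ * mO hI ^ 2 * hA₁ + mO hI ^ 2 * (-1 + δ * b) * h3
  rw [E5]
  exact GG.two b hε _

end alg

/-! ### Valuations -/

theorem vv (hI : I ^ 2 + I + 1 = 0) {z : PadicAlgCl 3} (h : z ∈ Kl I) (hz : z ≠ 0) :
    ∃ (n : ℤ) (u : OO I), ‖(u : PadicAlgCl 3)‖ = 1 ∧ z = ((mO hI : OO I) : PadicAlgCl 3) ^ n * u := by
  obtain ⟨k, hk⟩ := val hI (Kl_le h) hz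
  have hm0 := m_ne' hI
  have hmp := m_pos hI
  have hm2 : ‖((mO hI : OO I) : PadicAlgCl 3)‖ ^ 2 = 3⁻¹ := by
    rw [coe_m]
    exact norm_lam hI
  have hn : ‖z / ((mO hI : OO I) : PadicAlgCl 3) ^ (-k)‖ = 1 := by
    have h1 : ‖z / ((mO hI : OO I) : PadicAlgCl 3) ^ (-k)‖ ^ 2 = 1 := by
      rw [norm_div, norm_zpow, div_pow, hk, ← zpow_natCast, ← zpow_mul, mul_comm, zpow_mul,
        zpow_natCast, hm2, inv_zpow', neg_neg, div_self]
      positivity
    exact (pow_eq_one_iff_of_nonneg (norm_nonneg _) two_ne_zero).1 h1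
  refine ⟨-k, ⟨_, div_mem h (zpow_mem (mO hI).2.1 _), hn.le⟩, hn, ?_⟩
  rw [mul_div_cancel₀]
  exact zpow_ne_zero _ hm0

theorem zinj (hI : I ^ 2 + I + 1 = 0) {a b : ℤ}
    (h : ‖((mO hI : OO I) : PadicAlgCl 3)‖ ^ a = ‖((mO hI : OO I) : PadicAlgCl 3)‖ ^ b) : a = b :=
  zpow_right_injective₀ (m_pos hI) (m_lt hI).ne h

section ord

variable (hI : I ^ 2 + I + 1 = 0) {b : ℕ} {A A₂ : OO I}
  (hA : A = 1 - b * mO hI + mO hI ^ 2 * A₂)

include hA

theorem big {X : PadicAlgCl 3} (hX : X ∈ Kl I) (hX0 : X ≠ 0) {n : ℕ} (hn : 2 ≤ n) {y : OO I}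
    (hy : ‖(y : PadicAlgCl 3)‖ = 1)
    (h : ((mO hI : OO I) : PadicAlgCl 3) ^ n * y *
      (((mO hI : OO I) : PadicAlgCl 3) ^ n * y + (mO hI * A : OO I)) = X ^ 3) :
    GG hI ((mO hI * A : OO I) : PadicAlgCl 3) (EE hI b : OO I)
      (((mO hI : OO I) : PadicAlgCl 3) ^ n * y) := by
  obtain ⟨m, hm⟩ : ∃ m : PadicAlgCl 3, m = (mO hI : OO I) := ⟨_, rfl⟩
  have hm0 : m ≠ 0 := by rw [hm]; exact m_ne' hI
  have hAn := A_norm hI hA
  obtain ⟨A', hA', hA'n⟩ := unit_inv A hAn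
  have hA'c : (A : PadicAlgCl 3) * (A' : PadicAlgCl 3) = 1 := by
    have : ((A * A' : OO I) : PadicAlgCl 3) = 1 := by rw [hA']; rfl
    simpa using this
  have hA0 : (A : PadicAlgCl 3) ≠ 0 := left_ne_zero_of_mul_eq_one hA'c
  obtain ⟨k, x, hx, ex⟩ := vv hI hX hX0
  obtain ⟨n', rfl⟩ : ∃ n', n = n' + 2 := ⟨n - 2, by omega⟩
  -- the factorisation of `Y + α`
  have e1 : m ^ (n' + 2) * (y : PadicAlgCl 3) + (mO hI * A : OO I) =
      ((mO hI * A : OO I) : PadicAlgCl 3) *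
        ((1 + mO hI * (mO hI ^ n' * (y * A')) : OO I) : PadicAlgCl 3) := by
    push_cast
    rw [← hm]
    linear_combination (-m ^ (n' + 2) * (y : PadicAlgCl 3)) * hA'c
  have hk : (3 : ℤ) * k = n' + 3 := by
    apply zinj hI
    have h1 := congrArg norm h
    rw [← hm] at h1 ⊢
    rw [e1, ex, norm_mul, norm_mul, norm_mul, norm_small hI, norm_pow, norm_pow, norm_mul, hy,
      Subring.coe_mul, norm_mul, hAn, hx, norm_zpow, ← hm] at h1
    rw [mul_one, mul_one, mul_one, mul_one] at h1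
    rw [mul_comm (3 : ℤ) k, zpow_mul]
    rw [show ((‖m‖ ^ k) ^ (3 : ℤ)) = (‖m‖ ^ k) ^ 3 from by norm_cast, ← h1]
    rw [show ((n' : ℤ) + 3) = ((n' + 3 : ℕ) : ℤ) from by push_cast; ring, zpow_natCast]
    ring
  have hs : GG hI ((mO hI * A : OO I) : PadicAlgCl 3) (EE hI b : OO I)
      ((1 + mO hI * (mO hI ^ n' * (y * A')) : OO I) : PadicAlgCl 3) := by
    rcases Nat.lt_or_ge n' 2 with h2 | h2
    · have h0 : n' = 0 := by omega
      subst h0
      have hk1 : k = 1 := by omega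
      subst hk1
      have hyA : ‖((y * A' : OO I) : PadicAlgCl 3)‖ = 1 := by
        rw [Subring.coe_mul, norm_mul, hy, hA'n, mul_one]
      have h4 := sigma_case hI hA (σ := y * A') (x := x)
        (α := ((mO hI * A : OO I) : PadicAlgCl 3)) hyA hx (by
          apply Subtype.ext
          push_cast
          have h5 : m ^ 3 * ((y : PadicAlgCl 3) * (m * y + A)) = m ^ 3 * (x : PadicAlgCl 3) ^ 3 := by
            rw [ex, ← hm, zpow_one] at h
            push_cast at h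
            rw [← hm] at h
            linear_combination h
          have h6 := mul_left_cancel₀ (pow_ne_zero 3 hm0) h5
          rw [← hm, ← h6]
          linear_combination ((y : PadicAlgCl 3) * A + (y : PadicAlgCl 3) ^ 2 * m *
            ((A : PadicAlgCl 3) * A' + 1)) * hA'c)
      rw [pow_zero, one_mul]
      exact h4
    · obtain ⟨l, rfl⟩ : ∃ l, n' = l + 2 := ⟨n' - 2, by omega⟩
      have e : (1 + mO hI * (mO hI ^ (l + 2) * (y * A')) : OO I) =
          1 + mO hI ^ 3 * (mO hI ^ l * (y * A')) := by ring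
      rw [e]
      exact GG.small _
  have hα0 : ((mO hI * A : OO I) : PadicAlgCl 3) ≠ 0 := by
    rw [Subring.coe_mul]
    exact mul_ne_zero (m_ne' hI) hA0
  have hE0 : ((EE hI b : OO I) : PadicAlgCl 3) ≠ 0 := by
    rw [← norm_pos_iff, EE_norm]
    exact one_pos
  have hfin := (GG.cube (hI := hI) (α := ((mO hI * A : OO I) : PadicAlgCl 3))
    (E := (EE hI b : OO I)) hX hX0).mul
    (GG.inv (mO hI * A).2.1 hα0 (EE hI b).2.1 hE0 (GG.gen1.mul hs))
  have hne : ((mO hI * A : OO I) : PadicAlgCl 3) *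
        ((1 + mO hI * (mO hI ^ n' * (y * A')) : OO I) : PadicAlgCl 3) ≠ 0 := by
    refine mul_ne_zero hα0 ?_
    rw [← norm_pos_iff, norm_small]
    exact one_pos
  have e2 : X ^ 3 * (((mO hI * A : OO I) : PadicAlgCl 3) *
        ((1 + mO hI * (mO hI ^ n' * (y * A')) : OO I) : PadicAlgCl 3))⁻¹ =
      ((mO hI : OO I) : PadicAlgCl 3) ^ (n' + 2) * y := by
    rw [← h, ← hm, e1, mul_assoc, mul_inv_cancel₀ hne, mul_one]
  rw [e2] at hfin
  exact hfin

/-- **the class of the ordinate** -/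
theorem ord {X Y : PadicAlgCl 3} (hX : X ∈ Kl I) (hY : Y ∈ Kl I) (hY0 : Y ≠ 0)
    (h : Y ^ 2 + (mO hI * A : OO I) * Y = X ^ 3) :
    GG hI ((mO hI * A : OO I) : PadicAlgCl 3) (EE hI b : OO I) Y := by
  obtain ⟨m, hm⟩ : ∃ m : PadicAlgCl 3, m = (mO hI : OO I) := ⟨_, rfl⟩
  have hm0 : m ≠ 0 := by rw [hm]; exact m_ne' hI
  have hmp : 0 < ‖m‖ := norm_pos_iff.2 hm0
  have hm1 : ‖m‖ < 1 := by rw [hm]; exact m_lt hI
  have hAn := A_norm hI hA
  have hA0 : (A : PadicAlgCl 3) ≠ 0 := by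
    rw [← norm_pos_iff, hAn]
    exact one_pos
  obtain ⟨α, hα⟩ : ∃ α : PadicAlgCl 3, α = (mO hI * A : OO I) := ⟨_, rfl⟩
  have hα' : α = m * A := by rw [hα, Subring.coe_mul, hm]
  have hα0 : α ≠ 0 := by rw [hα']; exact mul_ne_zero hm0 hA0
  have hαm : α ∈ Kl I := by rw [hα]; exact (mO hI * A).2.1
  have hE0 : ((EE hI b : OO I) : PadicAlgCl 3) ≠ 0 := by
    rw [← norm_pos_iff, EE_norm]
    exact one_pos
  by_cases hX0 : X = 0
  · have h1 : Y * (Y + α) = 0 := by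
      rw [hX0, ← hα] at h
      linear_combination h
    have h2 : Y = (-1) ^ 3 * α := by
      rcases mul_eq_zero.1 h1 with h3 | h3
      · exact absurd h3 hY0
      · linear_combination h3
    rw [h2, hα]
    exact (GG.cube (neg_mem (one_mem _)) (neg_ne_zero.2 one_ne_zero)).mul GG.gen1
  obtain ⟨n, y, hy, ey⟩ := vv hI hY hY0
  obtain ⟨k, x, hx, ex⟩ := vv hI hX hX0
  rw [← hm] at ey ex
  have hXn : ‖X ^ 3‖ = ‖m‖ ^ (3 * k) := by
    rw [norm_pow, ex, norm_mul, hx, mul_one, norm_zpow, mul_comm, zpow_mul]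
    norm_cast
  rcases lt_trichotomy n 0 with hn | hn | hn
  · -- `Y` is large
    obtain ⟨y', hy', hy'n⟩ := unit_inv y hy
    have hyc : (y : PadicAlgCl 3) * (y' : PadicAlgCl 3) = 1 := by
      have : ((y * y' : OO I) : PadicAlgCl 3) = 1 := by rw [hy']; rfl
      simpa using this
    have hy0 : (y : PadicAlgCl 3) ≠ 0 := left_ne_zero_of_mul_eq_one hyc
    obtain ⟨N, hN⟩ : ∃ N : ℕ, (N : ℤ) = -n := ⟨(-n).toNat, by omega⟩
    have e1 : α / Y = ((mO hI * (mO hI ^ N * (A * y')) : OO I) : PadicAlgCl 3) := by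
      push_cast
      rw [← hm, div_eq_iff hY0, ey, hα']
      have h4 : m ^ N * m ^ n = 1 := by
        rw [← zpow_natCast, ← zpow_add₀ hm0, hN]
        simp
      linear_combination (-m * (A : PadicAlgCl 3) * ((y : PadicAlgCl 3) * y')) * h4 -
        m * (A : PadicAlgCl 3) * hyc
    have e2 : Y ^ 2 * ((1 + mO hI * (mO hI ^ N * (A * y')) : OO I) : PadicAlgCl 3) = X ^ 3 := by
      rw [← h, ← hα]
      have e3 : ((1 + mO hI * (mO hI ^ N * (A * y')) : OO I) : PadicAlgCl 3) = 1 + α / Y := by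
        rw [e1]
        push_cast
        ring
      rw [e3]
      field_simp
    have hk : 2 * n = 3 * k := by
      apply zinj hI
      rw [← hm, ← hXn, ← e2, norm_mul, norm_small hI, mul_one, norm_pow, ey, norm_mul, hy, mul_one,
        norm_zpow, mul_comm (2 : ℤ) n, zpow_mul]
      norm_cast
    obtain ⟨N', rfl⟩ : ∃ N', N = N' + 2 := ⟨N - 2, by omega⟩
    have e4 : (1 + mO hI * (mO hI ^ (N' + 2) * (A * y')) : OO I) =
        1 + mO hI ^ 3 * (mO hI ^ N' * (A * y')) := by ring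
    rw [e4] at e2
    have e5 : Y = (Y / X) ^ 3 * ((1 + mO hI ^ 3 * (mO hI ^ N' * (A * y')) : OO I) : PadicAlgCl 3) := by
      rw [div_pow, div_mul_eq_mul_div, eq_div_iff (pow_ne_zero 3 hX0)]
      linear_combination (-Y) * e2
    rw [e5]
    exact (GG.cube (div_mem hY hX) (div_ne_zero hY0 hX0)).mul (GG.small _)
  · -- `Y` is a unit
    subst hn
    rw [zpow_zero, one_mul] at ey
    have e1 : Y ^ 2 + α * Y = ((y * (y + mO hI * A) : OO I) : PadicAlgCl 3) := by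
      push_cast
      rw [ey, hα', ← hm]
      ring
    have hn1 : ‖((y + mO hI * A : OO I) : PadicAlgCl 3)‖ = 1 := by
      push_cast
      rw [eq_of_lt, hy]
      rw [hy, norm_mul, hAn, mul_one]
      exact m_lt hI
    have hk : 0 = 3 * k := by
      apply zinj hI
      rw [← hm, ← hXn, ← h, ← hα, e1, Subring.coe_mul, norm_mul, hy, hn1]
      simp
    have hk0 : k = 0 := by omega
    rw [hk0, zpow_zero, one_mul] at ex
    rw [ey]
    refine unit_case hI hA hy hx ?_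
    apply Subtype.ext
    push_cast
    rw [← hm, ← ex, ← h, ← hα, hα', ey]
  · rcases (by omega : n = 1 ∨ 2 ≤ n) with hn1 | hn2
    · -- `Y` and `α` have the same norm
      subst hn1
      rw [zpow_one] at ey
      obtain ⟨Z, hZ⟩ : ∃ Z, Z = -(Y + α) := ⟨_, rfl⟩
      have hZm : Z ∈ Kl I := by rw [hZ]; exact neg_mem (add_mem hY hαm)
      have hYZ : Y * Z = (-1) ^ 3 * X ^ 3 := by
        rw [hZ, ← h, ← hα]
        ring
      have hZ0 : Z ≠ 0 := by
        intro h0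
        rw [h0, mul_zero] at hYZ
        have : X ^ 3 = 0 := by linear_combination hYZ
        exact hX0 (pow_eq_zero_iff three_ne_zero |>.1 this)
      obtain ⟨n', z, hz, ez⟩ := vv hI hZm hZ0
      rw [← hm] at ez
      have hZn : ‖Z‖ = ‖m‖ ^ n' := by rw [ez, norm_mul, hz, mul_one, norm_zpow]
      have hk : 1 + n' = 3 * k := by
        apply zinj hI
        have h1 := congrArg norm hYZ
        rw [norm_mul, norm_mul, hXn, hZn, ey, norm_mul, hy, mul_one] at h1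
        have h2 : ‖((-1 : PadicAlgCl 3)) ^ 3‖ = 1 := by
          rw [norm_pow, norm_neg, norm_one, one_pow]
        rw [h2, one_mul] at h1
        rw [← hm, ← h1, zpow_add₀ hmp.ne', zpow_one]
      have hn'1 : 1 ≤ n' := by
        have h1 : ‖Z‖ < 1 := by
          rw [hZ, norm_neg]
          refine add_lt ?_ ?_
          · rw [ey, norm_mul, hy, mul_one]
            exact hm1
          · rw [hα', norm_mul, hAn, mul_one]
            exact hm1
        by_contra hcon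
        push Not at hcon
        rw [hZn] at h1
        have h2 : 1 ≤ ‖m‖ ^ n' := one_le_zpow_of_nonpos₀ hmp hm1.le (by omega)
        linarith
      obtain ⟨N, hN⟩ : ∃ N : ℕ, (N : ℤ) = n' := ⟨n'.toNat, by omega⟩
      rw [← hN, zpow_natCast] at ez
      have hbig := big hI hA hX hX0 (n := N) (by omega) (y := z) hz (by
        rw [← hm, ← ez, ← hα, hZ, ← h, ← hα]
        ring)
      rw [← hm, ← ez] at hbig
      have e5 : Y = (-1) ^ 3 * X ^ 3 * Z⁻¹ := by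
        rw [← hYZ, mul_assoc, mul_inv_cancel₀ hZ0, mul_one]
      rw [e5]
      exact ((GG.cube (neg_mem (one_mem _)) (neg_ne_zero.2 one_ne_zero)).mul
        (GG.cube hX hX0)).mul (GG.inv (by rw [← hα]; exact hαm) (by rw [← hα]; exact hα0)
          (EE hI b).2.1 hE0 hbig)
    · obtain ⟨N, hN⟩ : ∃ N : ℕ, (N : ℤ) = n := ⟨n.toNat, by omega⟩
      rw [← hN, zpow_natCast] at ey
      have hbig := big hI hA hX hX0 (n := N) (by omega) (y := y) hy (by
        rw [← hm, ← ey, ← h]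
        ring)
      rw [← hm, ← ey] at hbig
      exact hbig

end ord

end Pool.Agent.E8helper73.CTM
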